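import Mathlib

namespace Pool.Agent.Helper119.TH

/-- The fundamental group of the once-punctured torus: the free group on two generators. -/
abbrev F2 : Type := FreeGroup (Fin 2)

/-- The first generator. -/
def a : F2 := FreeGroup.of 0

/-- The second generator. The loop around the puncture is `a b a⁻¹ b⁻¹`. -/
def b : F2 := FreeGroup.of 1

/-- `SL(2,ℝ)`. -/
abbrev G2 : Type := Matrix.SpecialLinearGroup (Fin 2) ℝ

/-- The trace of an element of `SL(2,ℝ)`. -/
abbrev tr (M : G2) : ℝ := Matrix.trace (M : Matrix (Fin 2) (Fin 2) ℝ)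

/-- A marked complete finite-area hyperbolic once-punctured torus, given by the lifts with positive
trace `A`, `B` to `SL(2,ℝ)` of the holonomies of `a`, `b`; the loop `a b a⁻¹ b⁻¹` around the puncture
is parabolic, and its lift has trace `-2`. -/
structure Marked where
  A : G2
  B : G2
  posA : 0 < tr A
  posB : 0 < tr B
  cusp : tr (A * B * A⁻¹ * B⁻¹) = -2

/-- Marked structures carry the topology of the space of pairs of matrices. -/
instance : TopologicalSpace Marked :=
  TopologicalSpace.induced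
    (fun X => ((X.A : Matrix (Fin 2) (Fin 2) ℝ), (X.B : Matrix (Fin 2) (Fin 2) ℝ))) inferInstance

/-- The holonomy representation of a marked structure. -/
def rep (X : Marked) : F2 →* G2 := FreeGroup.lift ![X.A, X.B]

/-- Two marked structures are isotopic if their holonomies are conjugate in `GL(2,ℝ)`
(that is, by an isometry of the hyperbolic plane). -/
def Conj (X Y : Marked) : Prop :=
  ∃ P : Matrix (Fin 2) (Fin 2) ℝ, P.det ≠ 0 ∧ P * (X.A : Matrix (Fin 2) (Fin 2) ℝ) = Y.A * P ∧
    P * (X.B : Matrix (Fin 2) (Fin 2) ℝ) = Y.B * P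

/-- The Teichmüller space of the once-punctured torus. -/
def Teich : Type := Quot Conj

/-- The quotient topology on Teichmüller space. -/
instance : TopologicalSpace Teich := inferInstanceAs (TopologicalSpace (Quot Conj))

/-- The endomorphism of `F2` with `a ↦ x`, `b ↦ y`. -/
def sub (x y : F2) : F2 →* F2 := FreeGroup.lift ![x, y]

@[simp] theorem sub_a (x y : F2) : sub x y a = x := by simp [sub, a]
@[simp] theorem sub_b (x y : F2) : sub x y b = y := by simp [sub, b]

theorem hom_ext {H : Type*} [Group H] {f g : F2 →* H} (h0 : f a = g a) (h1 : f b = g b) : f = g := by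
  ext i
  fin_cases i
  · exact h0
  · exact h1

/-- The Dehn twist along `a`: `a ↦ a`, `b ↦ a b`. -/
def Ta : MulAut F2 :=
  MonoidHom.toMulEquiv (sub a (a * b)) (sub a (a⁻¹ * b))
    (hom_ext (by simp) (by simp)) (hom_ext (by simp) (by simp))

/-- The Dehn twist along `b`: `a ↦ a b`, `b ↦ b`. -/
def Tb : MulAut F2 :=
  MonoidHom.toMulEquiv (sub (a * b) b) (sub (a * b⁻¹) b)
    (hom_ext (by simp) (by simp)) (hom_ext (by simp) (by simp))

/-- The group generated by the two Dehn twists; modulo inner automorphisms it is the mapping class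
group `SL(2,ℤ)` of the once-punctured torus. -/
def Mod : Subgroup (MulAut F2) := Subgroup.closure {Ta, Tb}

/-- The essential simple closed curves: the images of `a` under mapping classes. -/
def Curve : Set F2 := {w | ∃ φ ∈ Mod, w = φ a}

/-- The length of the closed geodesic in the class of `w`: `2 arcosh (|tr| / 2)`. -/
noncomputable def len (X : Marked) (w : F2) : ℝ := 2 * Real.arcosh (|tr (rep X w)| / 2)

theorem inter_inv {P : Matrix (Fin 2) (Fin 2) ℝ} {M N : G2}
    (h : P * (M : Matrix (Fin 2) (Fin 2) ℝ) = N * P) :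
    P * ((M⁻¹ : G2) : Matrix (Fin 2) (Fin 2) ℝ) =
      ((N⁻¹ : G2) : Matrix (Fin 2) (Fin 2) ℝ) * P := by
  have h1 : (M : Matrix (Fin 2) (Fin 2) ℝ) * ((M⁻¹ : G2) : Matrix (Fin 2) (Fin 2) ℝ) = 1 := by
    rw [← Matrix.SpecialLinearGroup.coe_mul]; simp
  have h2 : ((N⁻¹ : G2) : Matrix (Fin 2) (Fin 2) ℝ) * (N : Matrix (Fin 2) (Fin 2) ℝ) = 1 := by
    rw [← Matrix.SpecialLinearGroup.coe_mul]; simp
  calc P * ((M⁻¹ : G2) : Matrix (Fin 2) (Fin 2) ℝ)
      = (((N⁻¹ : G2) : Matrix (Fin 2) (Fin 2) ℝ) * (N : Matrix (Fin 2) (Fin 2) ℝ)) *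
        (P * ((M⁻¹ : G2) : Matrix (Fin 2) (Fin 2) ℝ)) := by
        rw [h2, one_mul]
    _ = ((N⁻¹ : G2) : Matrix (Fin 2) (Fin 2) ℝ) *
        ((N * P) * ((M⁻¹ : G2) : Matrix (Fin 2) (Fin 2) ℝ)) := by simp only [mul_assoc]
    _ = ((N⁻¹ : G2) : Matrix (Fin 2) (Fin 2) ℝ) *
        ((P * M) * ((M⁻¹ : G2) : Matrix (Fin 2) (Fin 2) ℝ)) := by rw [h]
    _ = ((N⁻¹ : G2) : Matrix (Fin 2) (Fin 2) ℝ) *
        (P * (M * ((M⁻¹ : G2) : Matrix (Fin 2) (Fin 2) ℝ))) := by simp only [mul_assoc]
    _ = ((N⁻¹ : G2) : Matrix (Fin 2) (Fin 2) ℝ) * P := by rw [h1, mul_one]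

theorem inter_tr {P : Matrix (Fin 2) (Fin 2) ℝ} (hP : P.det ≠ 0)
    {M N : Matrix (Fin 2) (Fin 2) ℝ} (h : P * M = N * P) :
    Matrix.trace M = Matrix.trace N := by
  have hu : IsUnit P.det := isUnit_iff_ne_zero.2 hP
  have : N = P * M * P⁻¹ := by
    rw [h, mul_assoc, Matrix.mul_nonsing_inv P hu, mul_one]
  rw [this, mul_assoc, Matrix.trace_mul_comm, mul_assoc, Matrix.nonsing_inv_mul P hu, mul_one]

@[simp] theorem rep_a (X : Marked) : rep X a = X.A := by simp [rep, a]
@[simp] theorem rep_b (X : Marked) : rep X b = X.B := by simp [rep, b]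

theorem rep_conj {X Y : Marked} {P : Matrix (Fin 2) (Fin 2) ℝ}
    (hA : P * (X.A : Matrix (Fin 2) (Fin 2) ℝ) = Y.A * P)
    (hB : P * (X.B : Matrix (Fin 2) (Fin 2) ℝ) = Y.B * P) (w : F2) :
    P * (rep X w : Matrix (Fin 2) (Fin 2) ℝ) = rep Y w * P := by
  induction w using FreeGroup.induction_on with
  | C1 => simp
  | of i =>
    fin_cases i
    · have h1 := rep_a X
      have h2 := rep_a Y
      rw [a] at h1 h2
      simp only [Fin.zero_eta, h1, h2]
      exact hA
    · have h1 := rep_b X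
      have h2 := rep_b Y
      rw [b] at h1 h2
      simp only [Fin.mk_one, h1, h2]
      exact hB
  | inv_of i h =>
    rw [map_inv, map_inv]
    exact inter_inv h
  | mul x y hx hy =>
    rw [map_mul, map_mul, Matrix.SpecialLinearGroup.coe_mul, Matrix.SpecialLinearGroup.coe_mul,
      ← mul_assoc, hx, mul_assoc, hy, mul_assoc]

theorem len_congr {X Y : Marked} (h : Conj X Y) (w : F2) : len X w = len Y w := by
  obtain ⟨P, hP, hA, hB⟩ := h
  have h1 : tr (rep X w) = tr (rep Y w) := inter_tr hP (rep_conj hA hB w)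
  rw [len, len, h1]

/-- The length function on Teichmüller space. -/
noncomputable def tlen (p : Teich) (w : F2) : ℝ :=
  Quot.lift (fun X => len X w) (fun _ _ h => len_congr h w) p

/-- The Thurston metric. -/
noncomputable def dTh (p q : Teich) : ℝ := Real.log (⨆ w : Curve, tlen q w / tlen p w)

/-- `q` is obtained from `p` by changing the marking by a mapping class. -/
def ModRel (p q : Teich) : Prop :=
  ∃ φ ∈ Mod, ∃ X Y : Marked, p = Quot.mk _ X ∧ q = Quot.mk _ Y ∧
    Y.A = rep X (φ a) ∧ Y.B = rep X (φ b)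

/-- The moduli space. -/
def Moduli : Type := Quot ModRel

instance : TopologicalSpace Moduli := inferInstanceAs (TopologicalSpace (Quot ModRel))

/-- The projection from Teichmüller space to moduli space. -/
def toModuli (p : Teich) : Moduli := Quot.mk _ p

end Pool.Agent.Helper119.TH
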