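import Pool.Agent.Helper119.TH.Stretch

namespace Pool.Agent.Helper119.TH

open Filter Topology

/-- The twisted representations. -/
noncomputable def rN (E F : ℝ) (hE : 1 < E) (hF : 0 < F) (N : ℕ) : F2 →* G2 :=
  (rep (NF E F hE hF)).comp ((Ta ^ N : MulAut F2) : F2 →* F2)

theorem Ta_pow_a (N : ℕ) : (Ta ^ N : MulAut F2) a = a := by
  induction N with
  | zero => simp
  | succ n ih => rw [pow_succ, MulAut.mul_apply, Ta_a, ih]

theorem Ta_pow_b (N : ℕ) : (Ta ^ N : MulAut F2) b = a ^ N * b := by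
  induction N with
  | zero => simp
  | succ n ih =>
    rw [pow_succ, MulAut.mul_apply, Ta_b, map_mul, ih, Ta_pow_a, pow_succ']
    group

def Ex (E F : ℝ) (hE : 1 < E) (hF : 0 < F) (w : F2) (β : ℕ) : Prop :=
  ∃ c C : ℝ, 0 < c ∧ 0 < C ∧ ∀ N : ℕ,
    (∀ i j, 0 ≤ (rN E F hE hF N w : M2) i j ∧ (rN E F hE hF N w : M2) i j ≤ C * E ^ (β * N)) ∧
    c * E ^ (β * N) ≤ (rN E F hE hF N w : M2) 0 0

theorem Ex_mul {E F : ℝ} {hE : 1 < E} {hF : 0 < F} {w w' : F2} {β β' : ℕ}
    (h : Ex E F hE hF w β) (h' : Ex E F hE hF w' β') : Ex E F hE hF (w * w') (β + β') := by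
  obtain ⟨c, C, hc, hC, h⟩ := h
  obtain ⟨c', C', hc', hC', h'⟩ := h'
  refine ⟨c * c', C * C' + C * C', by positivity, by positivity, fun N => ?_⟩
  have h0 : 0 < E := by linarith
  have hpow : E ^ ((β + β') * N) = E ^ (β * N) * E ^ (β' * N) := by
    rw [add_mul, pow_add]
  have hP : 0 < E ^ (β * N) := by positivity
  have hP' : 0 < E ^ (β' * N) := by positivity
  obtain ⟨g1, g2⟩ := h N
  obtain ⟨g1', g2'⟩ := h' N
  rw [map_mul, Matrix.SpecialLinearGroup.coe_mul, hpow]
  refine ⟨fun i j => ?_, ?_⟩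
  · rw [Matrix.mul_apply, Fin.sum_univ_two]
    have a1 := g1 i 0
    have a2 := g1 i 1
    have b1 := g1' 0 j
    have b2 := g1' 1 j
    refine ⟨add_nonneg (mul_nonneg a1.1 b1.1) (mul_nonneg a2.1 b2.1), ?_⟩
    have m1 := mul_le_mul a1.2 b1.2 b1.1 (by positivity)
    have m2 := mul_le_mul a2.2 b2.2 b2.1 (by positivity)
    refine (add_le_add m1 m2).trans (le_of_eq (by ring))
  · rw [Matrix.mul_apply, Fin.sum_univ_two]
    have m1 := mul_le_mul g2 g2' (by positivity) (g1 0 0).1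
    have m2 := mul_nonneg (g1 0 1).1 (g1' 1 0).1
    calc c * c' * (E ^ (β * N) * E ^ (β' * N)) = c * E ^ (β * N) * (c' * E ^ (β' * N)) := by ring
      _ ≤ _ := m1
      _ ≤ _ := le_add_of_nonneg_right m2

theorem nA_pow {E : ℝ} (hE : 1 < E) (N : ℕ) :
    ((nA E hE ^ N : G2) : M2) = !![E ^ N, 0; 0, (E ^ N)⁻¹] := by
  induction N with
  | zero =>
    ext i j
    fin_cases i <;> fin_cases j <;> simp
  | succ n ih =>
    rw [pow_succ, Matrix.SpecialLinearGroup.coe_mul, ih]
    ext i j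
    fin_cases i <;> fin_cases j <;> simp [nA, Matrix.mul_apply, Fin.sum_univ_two, pow_succ, mul_comm]

theorem Ex_a (E F : ℝ) (hE : 1 < E) (hF : 0 < F) : Ex E F hE hF a 0 := by
  have h0 : 0 < E := by linarith
  refine ⟨E, E, h0, h0, fun N => ?_⟩
  have h1 : rN E F hE hF N a = nA E hE := by
    change rep (NF E F hE hF) ((Ta ^ N : MulAut F2) a) = _
    rw [Ta_pow_a, rep_a]; rfl
  rw [h1]
  have h2 : E⁻¹ ≤ E := (inv_le_one_of_one_le₀ hE.le).trans hE.le
  refine ⟨fun i j => ?_, by simp [nA]⟩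
  fin_cases i <;> fin_cases j <;> simp [nA, h0.le, h2]

theorem Ex_b (E F : ℝ) (hE : 1 < E) (hF : 0 < F) : Ex E F hE hF b 1 := by
  have h0 : 0 < E := by linarith
  have hT : 0 < E ^ 2 - 1 := by nlinarith
  have h1 : ∀ N, rN E F hE hF N b = nA E hE ^ N * nB E F hE hF := by
    intro N
    change rep (NF E F hE hF) ((Ta ^ N : MulAut F2) b) = _
    rw [Ta_pow_b, map_mul, map_pow, rep_a, rep_b]; rfl
  set p := (E ^ 2 + 1) / (E ^ 2 - 1) * F with hp
  set q := 2 * E / (E ^ 2 - 1) with hq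
  set r := (E ^ 2 + 1) / (E ^ 2 - 1) * F⁻¹ with hr
  have hp0 : 0 < p := by positivity
  have hq0 : 0 < q := by positivity
  have hr0 : 0 < r := by positivity
  refine ⟨p, p + q + r, hp0, by positivity, fun N => ?_⟩
  rw [h1, Matrix.SpecialLinearGroup.coe_mul, nA_pow]
  have hb : (nB E F hE hF : M2) = !![p, q; q, r] := rfl
  rw [hb]
  have hPp : 0 < E ^ N := by positivity
  have hP1 : 1 ≤ E ^ N := one_le_pow₀ hE.le
  have hPi : (E ^ N)⁻¹ ≤ E ^ N := (inv_le_one_of_one_le₀ hP1).trans hP1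
  have hPi0 : 0 < (E ^ N)⁻¹ := by positivity
  rw [one_mul]
  refine ⟨fun i j => ?_, by simp [Matrix.mul_apply, Fin.sum_univ_two, mul_comm]⟩
  fin_cases i <;> fin_cases j <;> simp [Matrix.mul_apply, Fin.sum_univ_two]
  · exact ⟨by positivity, by nlinarith [mul_pos hq0 hPp, mul_pos hr0 hPp]⟩
  · exact ⟨by positivity, by nlinarith [mul_pos hp0 hPp, mul_pos hr0 hPp]⟩
  · exact ⟨by positivity, by
      nlinarith [mul_pos hp0 hPp, mul_pos hr0 hPp, mul_le_mul_of_nonneg_right hPi hq0.le]⟩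
  · exact ⟨by positivity, by
      nlinarith [mul_pos hp0 hPp, mul_pos hq0 hPp, mul_le_mul_of_nonneg_right hPi hr0.le]⟩

inductive BN : ℕ → ℕ → MulAut F2 → Prop
  | base : BN 0 1 1
  | left {j k : ℕ} {φ : MulAut F2} : BN j k φ → BN j (j + k) (φ * Ta)
  | right {j k : ℕ} {φ : MulAut F2} : BN j k φ → BN (j + k) k (φ * Tb)

theorem BN_mod {j k : ℕ} {φ : MulAut F2} (h : BN j k φ) : φ ∈ Mod := by
  induction h with
  | base => exact one_mem _
  | left _ ih => exact mul_mem ih (Subgroup.subset_closure (Or.inl rfl))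
  | right _ ih => exact mul_mem ih (Subgroup.subset_closure (Or.inr rfl))

theorem BN_Ex {j k : ℕ} {φ : MulAut F2} (h : BN j k φ) (E F : ℝ) (hE : 1 < E) (hF : 0 < F) :
    Ex E F hE hF (φ a) j ∧ Ex E F hE hF (φ b) k := by
  induction h with
  | base => exact ⟨Ex_a E F hE hF, Ex_b E F hE hF⟩
  | @left j k φ _ ih =>
    rw [MulAut.mul_apply, MulAut.mul_apply, Ta_a, Ta_b, map_mul]
    exact ⟨ih.1, Ex_mul ih.1 ih.2⟩
  | @right j k φ _ ih =>
    rw [MulAut.mul_apply, MulAut.mul_apply, Tb_a, Tb_b, map_mul]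
    exact ⟨Ex_mul ih.1 ih.2, ih.2⟩

theorem BN_ex (n : ℕ) : ∀ j k : ℕ, j + k ≤ n → 1 ≤ j → 1 ≤ k → Nat.Coprime j k →
    ∃ φ, BN j k φ := by
  induction n with
  | zero => intro j k h h1 h2; omega
  | succ n ih =>
    intro j k h h1 h2 hc
    rcases lt_trichotomy j k with hlt | heq | hgt
    · obtain ⟨m, rfl⟩ := Nat.exists_eq_add_of_lt hlt
      have hc' : Nat.Coprime j (m + 1) := by
        rw [show j + m + 1 = (m + 1) + j by ring] at hc
        exact (Nat.coprime_add_self_right).1 hc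
      obtain ⟨φ, hφ⟩ := ih j (m + 1) (by omega) h1 (by omega) hc'
      exact ⟨_, hφ.left⟩
    · subst heq
      have : j = 1 := by simpa using hc
      subst this
      exact ⟨_, BN.base.right⟩
    · obtain ⟨m, rfl⟩ := Nat.exists_eq_add_of_lt hgt
      have hc' : Nat.Coprime (m + 1) k := by
        rw [show k + m + 1 = (m + 1) + k by ring] at hc
        exact (Nat.coprime_add_self_left).1 hc
      obtain ⟨φ, hφ⟩ := ih (m + 1) k (by omega) (by omega) h2 hc'
      have := hφ.right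
      rw [show m + 1 + k = k + m + 1 by ring] at this
      exact ⟨_, this⟩

theorem log_tendsto {E F : ℝ} {hE : 1 < E} {hF : 0 < F} {w : F2} {β : ℕ}
    (h : Ex E F hE hF w β) :
    Tendsto (fun N : ℕ => Real.log (tr (rN E F hE hF N w)) / N) atTop (𝓝 (β * Real.log E)) ∧
    ∀ N, 0 < tr (rN E F hE hF N w) := by
  obtain ⟨c, C, hc, hC, h⟩ := h
  have h0 : 0 < E := by linarith
  have lo : ∀ N, c * E ^ (β * N) ≤ tr (rN E F hE hF N w) := by
    intro N
    rw [tr, Matrix.trace_fin_two]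
    linarith [(h N).2, ((h N).1 1 1).1]
  have hi : ∀ N, tr (rN E F hE hF N w) ≤ 2 * C * E ^ (β * N) := by
    intro N
    rw [tr, Matrix.trace_fin_two]
    linarith [((h N).1 0 0).2, ((h N).1 1 1).2]
  have hpos : ∀ N, 0 < tr (rN E F hE hF N w) := fun N =>
    lt_of_lt_of_le (by positivity) (lo N)
  refine ⟨?_, hpos⟩
  have lim : ∀ K : ℝ, Tendsto (fun N : ℕ => K / N + β * Real.log E) atTop
      (𝓝 (β * Real.log E)) := by
    intro K
    have := (tendsto_const_div_atTop_nhds_zero_nat K).add_const (β * Real.log E)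
    simpa using this
  refine tendsto_of_tendsto_of_tendsto_of_le_of_le' (lim (Real.log c)) (lim (Real.log (2 * C)))
    ?_ ?_
  · filter_upwards [eventually_gt_atTop 0] with N hN
    have hN' : (0 : ℝ) < N := by exact_mod_cast hN
    have h1 := Real.log_le_log (by positivity) (lo N)
    rw [Real.log_mul (by positivity) (by positivity), Real.log_pow] at h1
    rw [le_div_iff₀ hN', add_mul, div_mul_cancel₀ _ hN'.ne']
    push_cast at h1
    linarith
  · filter_upwards [eventually_gt_atTop 0] with N hN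
    have hN' : (0 : ℝ) < N := by exact_mod_cast hN
    have h1 := Real.log_le_log (hpos N) (hi N)
    rw [Real.log_mul (by positivity) (by positivity), Real.log_pow] at h1
    rw [div_le_iff₀ hN', add_mul, div_mul_cancel₀ _ hN'.ne']
    push_cast at h1
    linarith

theorem slope_tendsto {x y z : ℕ → ℝ} {l : ℝ} (hl : 0 < l) {j k : ℕ} (hj : 1 ≤ j)
    (hx2 : ∀ N, 2 < x N) (hy0 : ∀ N, 0 < y N) (hz0 : ∀ N, 0 < z N)
    (hx : Tendsto (fun N : ℕ => Real.log (x N) / N) atTop (𝓝 (j * l)))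
    (hy : Tendsto (fun N : ℕ => Real.log (y N) / N) atTop (𝓝 (k * l)))
    (hz : Tendsto (fun N : ℕ => Real.log (z N) / N) atTop (𝓝 ((j + k : ℕ) * l)))  :
    Tendsto (fun N : ℕ => Real.log (cF (x N) (y N) (z N)) / Real.log (EE (x N))) atTop
      (𝓝 ((k : ℝ) / j)) := by
  have hj' : (1 : ℝ) ≤ j := by exact_mod_cast hj
  have lim0 : ∀ K : ℝ, Tendsto (fun N : ℕ => K / N) atTop (𝓝 0) :=
    fun K => tendsto_const_div_atTop_nhds_zero_nat K
  have hEx : ∀ N, x N / 2 ≤ EE (x N) ∧ EE (x N) ≤ x N := by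
    intro N
    have h1 := Real.sqrt_nonneg (x N ^ 2 - 4)
    have h2 : √(x N ^ 2 - 4) ≤ x N := by
      rw [Real.sqrt_le_left (by linarith [hx2 N])]
      linarith
    unfold EE
    constructor <;> linarith
  have hE0 : ∀ N, 1 < EE (x N) := fun N => EE_gt (hx2 N)
  have hE : Tendsto (fun N : ℕ => Real.log (EE (x N)) / N) atTop (𝓝 (j * l)) := by
    refine tendsto_of_tendsto_of_tendsto_of_le_of_le'
      (g := fun N : ℕ => Real.log (x N) / N - Real.log 2 / N) ?_ hx ?_ ?_
    · simpa using hx.sub (lim0 (Real.log 2))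
    · filter_upwards [eventually_gt_atTop 0] with N hN
      have hN' : (0 : ℝ) < N := by exact_mod_cast hN
      rw [← sub_div, ← Real.log_div (by linarith [hx2 N]) (by norm_num)]
      exact div_le_div_of_nonneg_right
        (Real.log_le_log (by linarith [hx2 N]) (hEx N).1) hN'.le
    · filter_upwards [eventually_gt_atTop 0] with N hN
      have hN' : (0 : ℝ) < N := by exact_mod_cast hN
      exact div_le_div_of_nonneg_right
        (Real.log_le_log (by linarith [hE0 N]) (hEx N).2) hN'.le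
  -- eventually `y / EE x ≤ z / 2`
  have hev : ∀ᶠ N : ℕ in atTop, (EE (x N))⁻¹ * y N ≤ z N / 2 := by
    have h1 : Tendsto (fun N : ℕ => Real.log (z N) / N - Real.log (y N) / N +
        Real.log (EE (x N)) / N) atTop (𝓝 ((j + k : ℕ) * l - k * l + j * l)) :=
      (hz.sub hy).add hE
    have h2 : (0 : ℝ) < (j + k : ℕ) * l - k * l + j * l := by
      push_cast
      have : (0 : ℝ) < j * l := by positivity
      linarith
    have h3 : Tendsto (fun N : ℕ => (Real.log (z N) / N - Real.log (y N) / N +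
        Real.log (EE (x N)) / N) * N) atTop atTop :=
      h1.pos_mul_atTop h2 tendsto_natCast_atTop_atTop
    filter_upwards [h3.eventually_ge_atTop (Real.log 2), eventually_gt_atTop 0] with N hN hN0
    have hN' : (0 : ℝ) < N := by exact_mod_cast hN0
    have hEN : 0 < EE (x N) := by linarith [hE0 N]
    have h4 : Real.log 2 ≤ Real.log (z N) - Real.log (y N) + Real.log (EE (x N)) := by
      have : (Real.log (z N) / N - Real.log (y N) / N + Real.log (EE (x N)) / N) * N =
        Real.log (z N) - Real.log (y N) + Real.log (EE (x N)) := by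
        field_simp
      linarith
    have h5 : Real.log (2 * y N) ≤ Real.log (z N * EE (x N)) := by
      rw [Real.log_mul (by norm_num) (hy0 N).ne', Real.log_mul (hz0 N).ne' hEN.ne']
      linarith
    have h6 : 2 * y N ≤ z N * EE (x N) :=
      (Real.log_le_log_iff (by linarith [hy0 N]) (mul_pos (hz0 N) hEN)).1 h5
    rw [inv_mul_le_iff₀ hEN]
    linarith
  have hFt : Tendsto (fun N : ℕ => Real.log (cF (x N) (y N) (z N)) / N) atTop (𝓝 (k * l)) := by
    have hzx : Tendsto (fun N : ℕ => Real.log (z N) / N - Real.log (x N) / N) atTop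
        (𝓝 (k * l)) := by
      have := hz.sub hx
      convert this using 2
      push_cast; ring
    refine tendsto_of_tendsto_of_tendsto_of_le_of_le'
      (g := fun N : ℕ => Real.log (z N) / N - Real.log (x N) / N - Real.log 2 / N) ?_ hzx ?_ ?_
    · simpa using hzx.sub (lim0 (Real.log 2))
    · filter_upwards [eventually_gt_atTop 0, hev] with N hN hN2
      have hN' : (0 : ℝ) < N := by exact_mod_cast hN
      have hxN : 0 < x N := by linarith [hx2 N]
      have hzN := hz0 N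
      rw [← sub_div, ← sub_div]
      refine div_le_div_of_nonneg_right ?_ hN'.le
      rw [← Real.log_div hzN.ne' hxN.ne', ← Real.log_div (by positivity) (by norm_num)]
      apply Real.log_le_log (by positivity)
      rw [cF, div_div, mul_comm (x N) 2, ← div_div]
      exact div_le_div_of_nonneg_right (by linarith) hxN.le
    · filter_upwards [eventually_gt_atTop 0, hev] with N hN hN2
      have hN' : (0 : ℝ) < N := by exact_mod_cast hN
      have hxN : 0 < x N := by linarith [hx2 N]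
      have hzN := hz0 N
      rw [← sub_div]
      refine div_le_div_of_nonneg_right ?_ hN'.le
      rw [← Real.log_div hzN.ne' hxN.ne']
      apply Real.log_le_log
      · rw [cF]
        exact div_pos (by linarith) hxN
      · rw [cF]
        have h7 : 0 ≤ (EE (x N))⁻¹ * y N :=
          mul_nonneg (inv_nonneg.2 (by linarith [hE0 N])) (hy0 N).le
        exact div_le_div_of_nonneg_right (by linarith) hxN.le
  have hfin := hFt.div hE (by positivity)
  have e1 : (k : ℝ) * l / (j * l) = k / j := by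
    field_simp
  rw [e1] at hfin
  refine hfin.congr' ?_
  filter_upwards [eventually_gt_atTop 0] with N hN
  have hN' : (N : ℝ) ≠ 0 := by positivity
  simp only [Pi.div_apply]
  field_simp

theorem dir_dense (E F : ℝ) (hE : 1 < E) (hF : 0 < F) (V : Set ℝ) (hV : IsOpen V)
    (μ₀ : ℝ) (hμ : μ₀ ∈ V) :
    ∃ ψ ∈ Mod, ∃ μ ∈ V, ∃ Y : Marked, Y.A = rep (NF E F hE hF) (ψ a) ∧
      Y.B = rep (NF E F hE hF) (ψ b) ∧
      cF (tr Y.A) (tr Y.B) (tr (Y.A * Y.B)) =
        Real.exp (Real.exp μ * Real.log (EE (tr Y.A))) := by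
  -- a rational slope
  have hcont : ContinuousAt Real.log (Real.exp μ₀) := Real.continuousAt_log (Real.exp_pos _).ne'
  have hnb : Real.log ⁻¹' V ∩ Set.Ioi 0 ∈ 𝓝 (Real.exp μ₀) := by
    refine inter_mem (hcont.preimage_mem_nhds ?_) (Ioi_mem_nhds (Real.exp_pos _))
    rw [Real.log_exp]
    exact hV.mem_nhds hμ
  obtain ⟨U, hUs, hUo, hUm⟩ := mem_nhds_iff.1 hnb
  obtain ⟨q, hq⟩ := Rat.denseRange_cast.exists_mem_open hUo ⟨_, hUm⟩
  have hq2 := hUs hq
  have hq0 : (0 : ℚ) < q := by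
    have := hq2.2
    rw [Set.mem_Ioi] at this
    exact_mod_cast this
  have hqn : 0 < q.num := Rat.num_pos.2 hq0
  obtain ⟨k, hk⟩ := Int.eq_ofNat_of_zero_le hqn.le
  have hk1 : 1 ≤ k := by
    have := hqn; rw [hk] at this; exact_mod_cast this
  have hj1 : 1 ≤ q.den := q.den_pos
  have hcop : Nat.Coprime q.den k := by
    have := q.reduced
    rw [hk] at this
    simpa using this.symm
  obtain ⟨φ, hφ⟩ := BN_ex _ q.den k le_rfl hj1 hk1 hcop
  obtain ⟨ha, hb⟩ := BN_Ex hφ E F hE hF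
  have hab := Ex_mul ha hb
  rw [← map_mul] at hab
  obtain ⟨ta, pa⟩ := log_tendsto ha
  obtain ⟨tb, pb⟩ := log_tendsto hb
  obtain ⟨tab, pab⟩ := log_tendsto hab
  have hTa : Ta ∈ Mod := Subgroup.subset_closure (Or.inl rfl)
  have hmodN : ∀ N : ℕ, Ta ^ N * φ ∈ Mod := fun N => mul_mem (pow_mem hTa N) (BN_mod hφ)
  have hY : ∀ N : ℕ, ∃ Y : Marked, Y.A = rep (NF E F hE hF) ((Ta ^ N * φ) a) ∧
      Y.B = rep (NF E F hE hF) ((Ta ^ N * φ) b) := fun N => ex_comp (hmodN N) (NF E F hE hF)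
  choose Y hYA hYB using hY
  have eA : ∀ N, rN E F hE hF N (φ a) = (Y N).A := fun N => (hYA N).symm
  have eB : ∀ N, rN E F hE hF N (φ b) = (Y N).B := fun N => (hYB N).symm
  have eAB : ∀ N, rN E F hE hF N (φ (a * b)) = (Y N).A * (Y N).B := by
    intro N; rw [map_mul, map_mul, eA, eB]
  have hl : 0 < Real.log E := Real.log_pos hE
  have hlim := slope_tendsto hl (x := fun N => tr (rN E F hE hF N (φ a)))
    (y := fun N => tr (rN E F hE hF N (φ b))) (z := fun N => tr (rN E F hE hF N (φ (a * b))))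
    hj1 (fun N => by rw [eA]; exact trA_gt _) pb pab ta tb tab
  have hqval : (k : ℝ) / (q.den : ℕ) = (q : ℝ) := by
    have h1 : (q : ℝ) = (q.num : ℝ) / (q.den : ℝ) := by
      rw [Rat.cast_def]
    rw [h1, hk]; simp
  rw [hqval] at hlim
  have hev := hlim.eventually (hUo.mem_nhds hq)
  obtain ⟨N, hN⟩ := hev.exists
  have hN2 := hUs hN
  simp only [eA, eB, eAB] at hN2
  refine ⟨Ta ^ N * φ, hmodN N, _, hN2.1, Y N, hYA N, hYB N, ?_⟩
  have hE1 : 0 < Real.log (EE (tr (Y N).A)) := Real.log_pos (EE_gt (trA_gt _))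
  rw [Real.exp_log hN2.2, div_mul_cancel₀ _ hE1.ne', Real.exp_log]
  exact cF_pos (trA_gt _) (Y N).posB (markov _)

end Pool.Agent.Helper119.TH
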