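import Pool.Agent.Helper119.TH.Trace

namespace Pool.Agent.Helper119.TH

/-- The automorphism `a ↦ a`, `b ↦ b⁻¹`. -/
def sg : F2 →* F2 := sub a b⁻¹

@[simp] theorem sg_a : sg a = a := sub_a _ _
@[simp] theorem sg_b : sg b = b⁻¹ := sub_b _ _

inductive Node : F2 → F2 → Prop
  | base : Node a b
  | left {P Q : F2} : Node P Q → Node P (P * Q)
  | right {P Q : F2} : Node P Q → Node (P * Q) Q

inductive Good : F2 → F2 → Prop
  | node {P Q : F2} : Node P Q → Good P Q
  | conj {U V : F2} (g : F2) : Good U V → Good (g * U * g⁻¹) (g * V * g⁻¹)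
  | inv {U V : F2} : Good U V → Good U V⁻¹
  | swap {U V : F2} : Good U V → Good V U
  | sig {U V : F2} : Good U V → Good (sg U) (sg V)

theorem Good.inv1 {U V : F2} (h : Good U V) : Good U⁻¹ V := h.swap.inv.swap

theorem Good.conj' {U V U' V' : F2} (h : Good U V) (g : F2) (h1 : U' = g * U * g⁻¹)
    (h2 : V' = g * V * g⁻¹) : Good U' V' := by
  rw [h1, h2]; exact h.conj g

theorem Good.inv' {U V V' : F2} (h : Good U V) (h1 : V' = V⁻¹) : Good U V' := by
  rw [h1]; exact h.inv

def GM (U V : F2) : Prop :=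
  Good U (U * V) ∧ Good U (U * V⁻¹) ∧ Good V (U * V) ∧ Good V (U * V⁻¹)

theorem GM_node {P Q : F2} (h : Node P Q) : GM P Q := by
  cases h with
  | base =>
    have h1 : Good a (a * b) := .node (.left .base)
    have h2 : Good b (a * b) := (Good.node (.right .base)).swap
    have h3 := h1.sig
    have h4 := h2.sig.inv1
    simp only [map_mul, sg_a, sg_b, inv_inv] at h3 h4
    exact ⟨h1, h3, h2, h4⟩
  | @left P Q h =>
    refine ⟨.node (.left (.left h)), ?_, (Good.node (.right (.left h))).swap, ?_⟩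
    · exact (Good.node h).inv.conj' P (by group) (by group)
    · exact (Good.node (.right h)).inv.conj' (P * Q) (by group) (by group)
  | @right P Q h =>
    refine ⟨.node (.left (.right h)), ?_, (Good.node (.right (.right h))).swap, ?_⟩
    · rw [mul_inv_cancel_right]
      exact (Good.node (.left h)).swap
    · rw [mul_inv_cancel_right]
      exact (Good.node h).swap

theorem GM_good {U V : F2} (h : Good U V) : GM U V := by
  induction h with
  | node h => exact GM_node h
  | @conj U V g _ ih =>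
    obtain ⟨h1, h2, h3, h4⟩ := ih
    exact ⟨h1.conj' g rfl (by group), h2.conj' g rfl (by group), h3.conj' g rfl (by group),
      h4.conj' g rfl (by group)⟩
  | @inv U V _ ih =>
    obtain ⟨h1, h2, h3, h4⟩ := ih
    refine ⟨h2, ?_, h4.inv1, ?_⟩
    · rw [inv_inv]; exact h1
    · rw [inv_inv]; exact h3.inv1
  | @swap U V _ ih =>
    obtain ⟨h1, h2, h3, h4⟩ := ih
    exact ⟨h3.conj' V (by group) (by group), h4.inv' (by group),
      h1.conj' U⁻¹ (by group) (by group), h2.inv' (by group)⟩
  | @sig U V _ ih =>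
    obtain ⟨h1, h2, h3, h4⟩ := ih
    have h1 := h1.sig
    have h2 := h2.sig
    have h3 := h3.sig
    have h4 := h4.sig
    simp only [map_mul, map_inv] at h1 h2 h3 h4
    exact ⟨h1, h2, h3, h4⟩

def GS (φ : MulAut F2) : Prop := ∀ U V, Good U V → Good (sub U V (φ a)) (sub U V (φ b))

theorem sub_comp (U V : F2) (φ : MulAut F2) (w : F2) :
    sub U V (φ w) = sub (sub U V (φ a)) (sub U V (φ b)) w := by
  have : (sub U V).comp (φ : F2 →* F2) = sub (sub U V (φ a)) (sub U V (φ b)) :=
    hom_ext (by simp) (by simp)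
  rw [← this]; rfl

theorem GS_mul {φ ψ : MulAut F2} (h1 : GS φ) (h2 : GS ψ) : GS (φ * ψ) := by
  intro U V h
  have := h2 _ _ (h1 U V h)
  rw [← sub_comp, ← sub_comp] at this
  exact this

theorem GS_mod {φ : MulAut F2} (hφ : φ ∈ Mod) : GS φ ∧ GS φ⁻¹ := by
  induction hφ using Subgroup.closure_induction with
  | mem x hx =>
    rcases hx with rfl | rfl
    · refine ⟨fun U V h => ?_, fun U V h => ?_⟩
      · simpa using (GM_good h).1
      · rw [Ta_a', Ta_b', map_mul, map_inv, sub_a, sub_b]
        exact (GM_good h).2.1.inv.conj' U⁻¹ (by group) (by group)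
    · refine ⟨fun U V h => ?_, fun U V h => ?_⟩
      · simpa using (GM_good h).2.2.1.swap
      · rw [Tb_a', Tb_b', map_mul, map_inv, sub_a, sub_b]
        exact (GM_good h).2.2.2.swap
  | one => exact ⟨fun U V h => by simpa using h, fun U V h => by simpa using h⟩
  | mul x y _ _ hx hy =>
    refine ⟨GS_mul hx.1 hy.1, ?_⟩
    rw [mul_inv_rev]
    exact GS_mul hy.2 hx.2
  | inv x _ hx => exact ⟨hx.2, by rw [inv_inv]; exact hx.1⟩

theorem good_mod {φ : MulAut F2} (hφ : φ ∈ Mod) : Good (φ a) (φ b) := by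
  have h := (GS_mod hφ).1 a b (.node .base)
  have h1 : sub a b = MonoidHom.id F2 := hom_ext (by simp) (by simp)
  rw [h1] at h
  simpa using h

end Pool.Agent.Helper119.TH
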