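import Pool.Agent.Helper119.TH.Dir

namespace Pool.Agent.Helper119.TH

open Filter Topology

theorem one_lt_ee (s : ℝ) : 1 < Real.exp (Real.exp s) := Real.one_lt_exp_iff.2 (Real.exp_pos s)

/-- The normal forms in exponential coordinates. -/
noncomputable def NN (q : ℝ × ℝ) : Marked :=
  NF (Real.exp (Real.exp q.1)) (Real.exp q.2) (one_lt_ee q.1) (Real.exp_pos q.2)

theorem sq_sub_ne (s : ℝ) : Real.exp (Real.exp s) ^ 2 - 1 ≠ 0 := by
  have := one_lt_ee s
  nlinarith

theorem cont_A : Continuous fun q : ℝ × ℝ => ((NN q).A : M2) := by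
  apply continuous_matrix
  intro i j
  fin_cases i <;> fin_cases j <;> simp only [NN, NF, nA] <;> simp
  · fun_prop
  · exact continuous_const
  · exact continuous_const
  · exact Continuous.inv₀ (by fun_prop) (fun q => (Real.exp_pos _).ne')

theorem cont_B : Continuous fun q : ℝ × ℝ => ((NN q).B : M2) := by
  apply continuous_matrix
  have h1 : Continuous fun q : ℝ × ℝ =>
      (Real.exp (Real.exp q.1) ^ 2 + 1) / (Real.exp (Real.exp q.1) ^ 2 - 1) :=
    Continuous.div (by fun_prop) (by fun_prop) (fun q => sq_sub_ne q.1)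
  have h2 : Continuous fun q : ℝ × ℝ =>
      2 * Real.exp (Real.exp q.1) / (Real.exp (Real.exp q.1) ^ 2 - 1) :=
    Continuous.div (by fun_prop) (by fun_prop) (fun q => sq_sub_ne q.1)
  intro i j
  fin_cases i <;> fin_cases j <;> simp only [NN, NF, nB] <;> simp
  · exact h1.mul (by fun_prop)
  · exact h2
  · exact h2
  · exact h1.mul (Continuous.inv₀ (by fun_prop) (fun q => (Real.exp_pos _).ne'))

theorem cont_NN : Continuous NN := by
  apply continuous_induced_rng.2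
  exact cont_A.prodMk cont_B

theorem cont_inv {f : ℝ × ℝ → G2} (h : Continuous fun q => (f q : M2)) :
    Continuous fun q => ((f q)⁻¹ : G2).1 := by
  have : (fun q => ((f q)⁻¹ : G2).1) = fun q => ((f q : M2)).adjugate := by
    funext q
    exact Matrix.SpecialLinearGroup.coe_inv _
  rw [this]
  exact h.matrix_adjugate

theorem cont_rep (w : F2) : Continuous fun q : ℝ × ℝ => (rep (NN q) w : M2) := by
  induction w using FreeGroup.induction_on with
  | C1 => simp only [map_one]; exact continuous_const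
  | of i =>
    fin_cases i
    · have : (fun q : ℝ × ℝ => (rep (NN q) (FreeGroup.of 0) : M2)) =
        fun q => ((NN q).A : M2) := by
        funext q
        have h := rep_a (NN q)
        rw [a] at h
        rw [h]
      simp only [Fin.zero_eta]
      rw [this]; exact cont_A
    · have : (fun q : ℝ × ℝ => (rep (NN q) (FreeGroup.of 1) : M2)) =
        fun q => ((NN q).B : M2) := by
        funext q
        have h := rep_b (NN q)
        rw [b] at h
        rw [h]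
      simp only [Fin.mk_one]
      rw [this]; exact cont_B
  | inv_of i h =>
    simp only [map_inv]
    exact cont_inv h
  | mul x y hx hy =>
    simp only [map_mul, Matrix.SpecialLinearGroup.coe_mul]
    exact hx.matrix_mul hy

theorem cont_tr (w : F2) : Continuous fun q : ℝ × ℝ => tr (rep (NN q) w) :=
  (cont_rep w).matrix_trace

/-- Coordinates of a marked structure. -/
noncomputable def cc (x y z : ℝ) : ℝ × ℝ := (Real.log (Real.log (EE x)), Real.log (cF x y z))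

theorem conj_NN (X : Marked) : Conj X (NN (cc (tr X.A) (tr X.B) (tr (X.A * X.B)))) := by
  have hg := trA_gt X
  have h1 : 0 < Real.log (EE (tr X.A)) := Real.log_pos (EE_gt hg)
  refine conj_NF X _ _ (one_lt_ee _) (Real.exp_pos _) ?_ ?_
  · rw [cc, Real.exp_log h1, Real.exp_log (by linarith [EE_gt hg])]
  · rw [cc, Real.exp_log (cF_pos hg X.posB (markov X))]

theorem cc_NN (q : ℝ × ℝ) : cc (tr (NN q).A) (tr (NN q).B) (tr ((NN q).A * (NN q).B)) = q := by
  change cc (tr (nA _ (one_lt_ee q.1))) (tr (nB _ _ (one_lt_ee q.1) (Real.exp_pos q.2)))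
    (tr (nA _ (one_lt_ee q.1) * nB _ _ (one_lt_ee q.1) (Real.exp_pos q.2))) = q
  rw [tr_nA, tr_nB, tr_nAB, cc, cF_NF _ _ (one_lt_ee q.1) (Real.exp_pos q.2),
    EE_add (one_lt_ee q.1)]
  simp

/-- The coordinates of `NN q` with its marking changed by `φ`. -/
noncomputable def hh (φ : MulAut F2) (q : ℝ × ℝ) : ℝ × ℝ :=
  cc (tr (rep (NN q) (φ a))) (tr (rep (NN q) (φ b))) (tr (rep (NN q) (φ a) * rep (NN q) (φ b)))

theorem cont_hh {φ : MulAut F2} (hφ : φ ∈ Mod) : Continuous (hh φ) := by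
  have cx := cont_tr (φ a)
  have cy := cont_tr (φ b)
  have cz : Continuous fun q : ℝ × ℝ => tr (rep (NN q) (φ a) * rep (NN q) (φ b)) := by
    have := cont_tr (φ a * φ b)
    simpa only [map_mul] using this
  have hY : ∀ q : ℝ × ℝ, ∃ Y : Marked, Y.A = rep (NN q) (φ a) ∧ Y.B = rep (NN q) (φ b) :=
    fun q => ex_comp hφ (NN q)
  have hx : ∀ q, 2 < tr (rep (NN q) (φ a)) := by
    intro q
    obtain ⟨Y, h1, h2⟩ := hY q
    rw [← h1]; exact trA_gt Y
  have hF : ∀ q, 0 < cF (tr (rep (NN q) (φ a))) (tr (rep (NN q) (φ b)))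
      (tr (rep (NN q) (φ a) * rep (NN q) (φ b))) := by
    intro q
    obtain ⟨Y, h1, h2⟩ := hY q
    rw [← h1, ← h2]; exact cF_pos (trA_gt Y) Y.posB (markov Y)
  have cE : Continuous fun q : ℝ × ℝ => EE (tr (rep (NN q) (φ a))) := by
    unfold EE
    fun_prop
  have hE : ∀ q, 1 < EE (tr (rep (NN q) (φ a))) := fun q => EE_gt (hx q)
  unfold hh cc
  refine Continuous.prodMk ?_ ?_
  · exact Continuous.log (Continuous.log cE (fun q => by linarith [hE q]))
      (fun q => (Real.log_pos (hE q)).ne')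
  · refine Continuous.log ?_ (fun q => (hF q).ne')
    unfold cF
    refine Continuous.div ?_ cx (fun q => by linarith [hx q])
    exact cz.sub ((Continuous.inv₀ cE (fun q => by linarith [hE q])).mul cy)

/-- The ray with slope `exp μ`. -/
noncomputable def ray (μ t : ℝ) : ℝ × ℝ := (t, Real.exp μ * Real.exp t)

theorem conj_symm {X Y : Marked} (h : Conj X Y) : Conj Y X := by
  obtain ⟨P, hP, h1, h2⟩ := h
  have hu : IsUnit P.det := isUnit_iff_ne_zero.2 hP
  have key : ∀ M N : M2, P * M = N * P → P⁻¹ * N = M * P⁻¹ := by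
    intro M N h
    calc P⁻¹ * N = P⁻¹ * (N * P) * P⁻¹ := by
          rw [mul_assoc, mul_assoc, Matrix.mul_nonsing_inv P hu, mul_one]
      _ = P⁻¹ * (P * M) * P⁻¹ := by rw [h]
      _ = M * P⁻¹ := by rw [← mul_assoc P⁻¹, Matrix.nonsing_inv_mul P hu, one_mul]
  refine ⟨P⁻¹, ?_, key _ _ h1, key _ _ h2⟩
  rw [Matrix.det_nonsing_inv]
  simpa using hP

theorem proj_eq {φ : MulAut F2} (hφ : φ ∈ Mod) {X Y : Marked} (hA : Y.A = rep X (φ a))
    (hB : Y.B = rep X (φ b)) : toModuli (Quot.mk _ X) = toModuli (Quot.mk _ Y) :=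
  Quot.sound ⟨φ, hφ, X, Y, rfl, rfl, hA, hB⟩

theorem hit (p : ℝ × ℝ) (V : Set ℝ) (hV : IsOpen V) (μ₀ : ℝ) (hμ : μ₀ ∈ V) :
    ∃ μ ∈ V, ∃ φ ∈ Mod, ∃ t, hh φ (ray μ t) = p := by
  obtain ⟨ψ, hψ, μ, hμV, Y, hYA, hYB, hY⟩ :=
    dir_dense (Real.exp (Real.exp p.1)) (Real.exp p.2) (one_lt_ee p.1) (Real.exp_pos p.2)
      V hV μ₀ hμ
  refine ⟨μ, hμV, ψ⁻¹, inv_mem hψ, Real.log (Real.log (EE (tr Y.A))), ?_⟩
  have hE1 : 0 < Real.log (EE (tr Y.A)) := Real.log_pos (EE_gt (trA_gt _))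
  have hc := conj_NN Y
  have hray : cc (tr Y.A) (tr Y.B) (tr (Y.A * Y.B)) =
      ray μ (Real.log (Real.log (EE (tr Y.A)))) := by
    rw [cc, ray, hY, Real.log_exp, Real.exp_log hE1]
  rw [hray] at hc
  obtain ⟨P, hP, h1, h2⟩ := hc
  have h3 : ∀ w, tr (rep Y w) = tr (rep (NN (ray μ (Real.log (Real.log (EE (tr Y.A)))))) w) :=
    fun w => inter_tr hP (rep_conj h1 h2 w)
  have h4 : ∀ w, rep Y (ψ⁻¹ w) = rep (NN p) w := by
    intro w
    have := rep_eq (X := NN p) (Y := Y) (φ := ψ) hYA hYB (ψ⁻¹ w)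
    rw [this]
    congr 1
    exact MulAut.apply_inv_self _ ψ w
  have := cc_NN p
  rw [hh]
  rw [← map_mul (rep (NN (ray μ _)))]
  rw [← h3, ← h3, ← h3, map_mul, h4, h4, rep_a, rep_b]
  exact this

theorem exists_mu : ∃ μ : ℝ, ∀ W : Set (ℝ × ℝ), IsOpen W → W.Nonempty →
    ∃ φ ∈ Mod, ∃ t, hh φ (ray μ t) ∈ W := by
  obtain ⟨B, hBc, -, hB⟩ := TopologicalSpace.exists_countable_basis (ℝ × ℝ)
  let O : Set (ℝ × ℝ) → Set ℝ := fun W => {μ | W.Nonempty → ∃ φ ∈ Mod, ∃ t, hh φ (ray μ t) ∈ W}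
  have hO : ∀ W ∈ B, IsOpen (O W) := by
    intro W hW
    by_cases hne : W.Nonempty
    · have : O W = ⋃ φ ∈ Mod, ⋃ t : ℝ, (fun μ => hh φ (ray μ t)) ⁻¹' W := by
        ext μ
        simp only [O, Set.mem_ofPred_eq, Set.mem_iUnion, Set.mem_preimage, exists_prop]
        exact ⟨fun h => h hne, fun h _ => h⟩
      rw [this]
      refine isOpen_biUnion fun φ hφ => isOpen_iUnion fun t => ?_
      refine (hB.isOpen hW).preimage ((cont_hh hφ).comp ?_)
      unfold ray
      fun_prop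
    · have : O W = Set.univ := by
        ext μ
        simp [O, hne]
      rw [this]; exact isOpen_univ
  have hd : ∀ W ∈ B, Dense (O W) := by
    intro W hW
    rw [dense_iff_inter_open]
    rintro V hV ⟨μ₀, hμ⟩
    by_cases hne : W.Nonempty
    · obtain ⟨p, hp⟩ := hne
      obtain ⟨μ, hμV, φ, hφ, t, ht⟩ := hit p V hV μ₀ hμ
      exact ⟨μ, hμV, fun _ => ⟨φ, hφ, t, by rw [ht]; exact hp⟩⟩
    · exact ⟨μ₀, hμ, fun h => absurd h hne⟩
  obtain ⟨μ, hμ⟩ := (dense_biInter_of_isOpen hO hBc hd).nonempty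
  refine ⟨μ, fun W hW ⟨p, hp⟩ => ?_⟩
  obtain ⟨W', hW'B, hpW', hW'W⟩ := hB.exists_subset_of_mem_open hp hW
  have h1 := Set.mem_iInter₂.1 hμ W' hW'B
  obtain ⟨φ, hφ, t, ht⟩ := h1 ⟨p, hpW'⟩
  exact ⟨φ, hφ, t, hW'W ht⟩

theorem len_nonneg' (X : Marked) {w : F2} (hw : w ∈ Curve) : 0 ≤ len X w := by
  obtain ⟨φ, hφ, rfl⟩ := hw
  obtain ⟨Y, h1, h2⟩ := ex_comp hφ X
  rw [len, ← h1]
  have := trA_gt Y
  have h3 : 0 ≤ Real.arcosh (|tr Y.A| / 2) := by
    apply Real.arcosh_nonneg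
    rw [abs_of_pos (by linarith)]
    linarith
  positivity

theorem a_mem : a ∈ Curve := ⟨1, one_mem _, rfl⟩

theorem dTh_ray (μ s t : ℝ) (hst : s ≤ t) :
    dTh (Quot.mk _ (NN (ray μ s))) (Quot.mk _ (NN (ray μ t))) = t - s := by
  have hk : 1 ≤ Real.exp (t - s) := Real.one_le_exp (by linarith)
  have e1 : Real.exp (Real.exp s) ^ Real.exp (t - s) = Real.exp (Real.exp t) := by
    rw [← Real.exp_mul, ← Real.exp_add]
    congr 2
    ring
  have e2 : Real.exp (Real.exp μ * Real.exp s) ^ Real.exp (t - s) =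
      Real.exp (Real.exp μ * Real.exp t) := by
    rw [← Real.exp_mul, mul_assoc, ← Real.exp_add]
    congr 3
    ring
  have hSF : NN (ray μ t) = SF (Real.exp (Real.exp s)) (Real.exp (Real.exp μ * Real.exp s))
      (Real.exp (t - s)) (one_lt_ee s) (Real.exp_pos _) hk := by
    simp only [NN, ray, SF]
    congr 1
    · exact e1.symm
    · exact e2.symm
  have hle : ∀ w : Curve, tlen (Quot.mk _ (NN (ray μ t))) w / tlen (Quot.mk _ (NN (ray μ s))) w ≤
      Real.exp (t - s) := by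
    rintro ⟨w, hw⟩
    change len (NN (ray μ t)) w / len (NN (ray μ s)) w ≤ _
    refine div_le_of_le_mul₀ (len_nonneg' _ hw) (by positivity) ?_
    obtain ⟨φ, hφ, rfl⟩ := hw
    rw [hSF]
    exact stretch_le hφ _ _ _ (one_lt_ee s) (Real.exp_pos _) hk
  have hla : ∀ r, len (NN (ray μ r)) a = 2 * Real.exp r := by
    intro r
    change len (NF _ _ _ _) a = _
    rw [len_a]
    simp [ray]
  have heq : tlen (Quot.mk _ (NN (ray μ t))) (⟨a, a_mem⟩ : Curve) /
      tlen (Quot.mk _ (NN (ray μ s))) (⟨a, a_mem⟩ : Curve) = Real.exp (t - s) := by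
    change len (NN (ray μ t)) a / len (NN (ray μ s)) a = _
    rw [hla, hla, Real.exp_sub]
    have := (Real.exp_pos s).ne'
    field_simp
  have hsup : (⨆ w : Curve, tlen (Quot.mk _ (NN (ray μ t))) w /
      tlen (Quot.mk _ (NN (ray μ s))) w) = Real.exp (t - s) := by
    have : Nonempty Curve := ⟨⟨a, a_mem⟩⟩
    apply le_antisymm
    · exact ciSup_le hle
    · rw [← heq]
      exact le_ciSup (f := fun w : Curve => tlen (Quot.mk _ (NN (ray μ t))) w /
        tlen (Quot.mk _ (NN (ray μ s))) w) ⟨_, by rintro _ ⟨w, rfl⟩; exact hle w⟩ ⟨a, a_mem⟩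
  unfold dTh
  rw [hsup, Real.log_exp]

theorem main : ∃ G : ℝ → Teich, (∀ s t, s ≤ t → dTh (G s) (G t) = t - s) ∧
    DenseRange (fun t => toModuli (G t)) := by
  obtain ⟨μ, hμ⟩ := exists_mu
  refine ⟨fun t => Quot.mk _ (NN (ray μ t)), fun s t h => dTh_ray μ s t h, ?_⟩
  rw [DenseRange, dense_iff_inter_open]
  rintro U hU ⟨p, hp⟩
  have hcont : Continuous fun q : ℝ × ℝ => toModuli (Quot.mk _ (NN q)) :=
    continuous_quot_mk.comp (continuous_quot_mk.comp cont_NN)
  have hW := hU.preimage hcont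
  have hne : ((fun q : ℝ × ℝ => toModuli (Quot.mk _ (NN q))) ⁻¹' U).Nonempty := by
    obtain ⟨x, rfl⟩ := Quot.exists_rep p
    obtain ⟨X, rfl⟩ := Quot.exists_rep x
    refine ⟨cc (tr X.A) (tr X.B) (tr (X.A * X.B)), ?_⟩
    have : (Quot.mk Conj (NN (cc (tr X.A) (tr X.B) (tr (X.A * X.B)))) : Teich) = Quot.mk _ X :=
      (Quot.sound (conj_NN X)).symm
    rw [Set.mem_preimage, this]
    exact hp
  obtain ⟨φ, hφ, t, ht⟩ := hμ _ hW hne
  refine ⟨toModuli (Quot.mk _ (NN (ray μ t))), ?_, ⟨t, rfl⟩⟩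
  obtain ⟨Y, hA, hB⟩ := ex_comp hφ (NN (ray μ t))
  have h1 : Conj Y (NN (hh φ (ray μ t))) := by
    have := conj_NN Y
    rwa [hA, hB] at this
  have h2 : (Quot.mk Conj Y : Teich) = Quot.mk _ (NN (hh φ (ray μ t))) := Quot.sound h1
  rw [proj_eq hφ hA hB, h2]
  exact ht

end Pool.Agent.Helper119.TH
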