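import Pool.Agent.Helper119.TH.Good

namespace Pool.Agent.Helper119.TH

/-- Two marked structures with the same traces are conjugate. -/
theorem exists_V (X : Marked) {l : ℝ} (hl : 1 < l) (hl2 : l * l - tr X.A * l + 1 = 0) :
    ∃ V : M2, V.det ≠ 0 ∧
      V * (X.A : M2) = !![l, 0; tr X.B * l + tr (X.A * X.B) - tr X.A * tr X.B, tr X.A - l] * V ∧
      V * (X.B : M2) = !![0, 1; -1, tr X.B] * V := by
  have hA := ent X.A
  have hB := ent X.B
  have hc := X.cusp
  rw [tr_comm] at hc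
  simp only [tr, Matrix.SpecialLinearGroup.coe_mul] at *
  generalize (X.A : M2) = A at *
  generalize (X.B : M2) = B at *
  simp only [Matrix.trace_fin_two, Matrix.mul_apply, Fin.sum_univ_two] at *
  have hv : ∃ v1 v2 : ℝ, (v1 ≠ 0 ∨ v2 ≠ 0) ∧ v1 * A 0 0 + v2 * A 1 0 = l * v1 ∧
      v1 * A 0 1 + v2 * A 1 1 = l * v2 := by
    by_cases h1 : l - A 1 1 ≠ 0 ∨ A 0 1 ≠ 0
    · exact ⟨l - A 1 1, A 0 1, h1, by linear_combination -hA - hl2, by ring⟩
    · push Not at h1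
      refine ⟨A 1 0, l - A 0 0, Or.inr fun h => ?_, by ring, by linear_combination -hA - hl2⟩
      have e1 : A 1 1 = l := by linarith [h1.1]
      have e2 : A 0 0 = l := by linarith
      rw [h1.2, e1, e2] at hA
      nlinarith
  obtain ⟨v1, v2, hne, e1, e2⟩ := hv
  refine ⟨!![v1, v2; v1 * B 0 0 + v2 * B 1 0, v1 * B 0 1 + v2 * B 1 1], ?_, ?_, ?_⟩
  · intro hd
    rw [Matrix.det_fin_two] at hd
    simp at hd
    -- v B = μ v
    obtain ⟨μ, hm1, hm2⟩ : ∃ μ : ℝ, v1 * B 0 0 + v2 * B 1 0 = μ * v1 ∧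
        v1 * B 0 1 + v2 * B 1 1 = μ * v2 := by
      rcases hne with h | h
      · refine ⟨(v1 * B 0 0 + v2 * B 1 0) / v1, by field_simp, ?_⟩
        rw [eq_comm, div_mul_eq_mul_div, div_eq_iff h]
        linarith
      · refine ⟨(v1 * B 0 1 + v2 * B 1 1) / v2, ?_, by field_simp⟩
        rw [eq_comm, div_mul_eq_mul_div, div_eq_iff h]
        linarith
    set c00 := A 0 0 * B 0 0 + A 0 1 * B 1 0 - (B 0 0 * A 0 0 + B 0 1 * A 1 0) with h00
    set c01 := A 0 0 * B 0 1 + A 0 1 * B 1 1 - (B 0 0 * A 0 1 + B 0 1 * A 1 1) with h01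
    set c10 := A 1 0 * B 0 0 + A 1 1 * B 1 0 - (B 1 0 * A 0 0 + B 1 1 * A 1 0) with h10
    set c11 := A 1 0 * B 0 1 + A 1 1 * B 1 1 - (B 1 0 * A 0 1 + B 1 1 * A 1 1) with h11
    have k1 : v1 * c00 + v2 * c10 = 0 := by
      have : v1 * c00 + v2 * c10 = (v1 * A 0 0 + v2 * A 1 0) * B 0 0 +
        (v1 * A 0 1 + v2 * A 1 1) * B 1 0 - ((v1 * B 0 0 + v2 * B 1 0) * A 0 0 +
        (v1 * B 0 1 + v2 * B 1 1) * A 1 0) := by rw [h00, h10]; ring
      rw [this, hm1, hm2, e1, e2]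
      linear_combination l * hm1 - μ * e1
    have k2 : v1 * c01 + v2 * c11 = 0 := by
      have : v1 * c01 + v2 * c11 = (v1 * A 0 0 + v2 * A 1 0) * B 0 1 +
        (v1 * A 0 1 + v2 * A 1 1) * B 1 1 - ((v1 * B 0 0 + v2 * B 1 0) * A 0 1 +
        (v1 * B 0 1 + v2 * B 1 1) * A 1 1) := by rw [h01, h11]; ring
      rw [this, hm1, hm2, e1, e2]
      linear_combination l * hm2 - μ * e2
    have hdet : c00 * c11 - c01 * c10 = 4 := by
      rw [h00, h01, h10, h11]
      clear_value c00 c01 c10 c11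
      clear k1 k2 h00 h01 h10 h11 hm1 hm2 hd e1 e2 hne
      generalize A 0 0 = p at *
      generalize A 0 1 = q at *
      generalize A 1 0 = r at *
      generalize A 1 1 = s at *
      generalize B 0 0 = p' at *
      generalize B 0 1 = q' at *
      generalize B 1 0 = r' at *
      generalize B 1 1 = s' at *
      grind
    have z1 : v1 * 4 = 0 := by rw [← hdet]; linear_combination c11 * k1 - c10 * k2
    have z2 : v2 * 4 = 0 := by rw [← hdet]; linear_combination c00 * k2 - c01 * k1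
    rcases hne with h | h
    · exact h (by linarith)
    · exact h (by linarith)
  · ext i j
    fin_cases i <;> fin_cases j <;> simp [Matrix.mul_apply, Fin.sum_univ_two]
    · linarith
    · linarith
    · linear_combination (B 0 0 + B 1 1) * e1 - B 0 0 * e1 - B 1 0 * e2
    · linear_combination (B 0 0 + B 1 1) * e2 - B 0 1 * e1 - B 1 1 * e2
  · ext i j
    fin_cases i <;> fin_cases j <;> simp [Matrix.mul_apply, Fin.sum_univ_two]
    · linear_combination (-v1) * hB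
    · linear_combination (-v2) * hB

/-- The larger root of `l + 1/l = x`. -/
noncomputable def EE (x : ℝ) : ℝ := (x + √(x ^ 2 - 4)) / 2

theorem EE_gt {x : ℝ} (hx : 2 < x) : 1 < EE x := by
  have := Real.sqrt_nonneg (x ^ 2 - 4)
  unfold EE
  linarith

theorem EE_eq {x : ℝ} (hx : 2 < x) : EE x * EE x - x * EE x + 1 = 0 := by
  have h : √(x ^ 2 - 4) ^ 2 = x ^ 2 - 4 := Real.sq_sqrt (by nlinarith)
  unfold EE
  linear_combination h / 4

theorem EE_add {E : ℝ} (hE : 1 < E) : EE (E + E⁻¹) = E := by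
  have h0 : 0 < E := by linarith
  have h1 : (E + E⁻¹) ^ 2 - 4 = (E - E⁻¹) ^ 2 := by field_simp; ring
  have h2 : E⁻¹ < E := by
    have : E⁻¹ < 1 := inv_lt_one_of_one_lt₀ hE
    linarith
  rw [EE, h1, Real.sqrt_sq (by linarith)]
  ring

theorem conj_of_traces (X Y : Marked) (hx : tr X.A = tr Y.A) (hy : tr X.B = tr Y.B)
    (hz : tr (X.A * X.B) = tr (Y.A * Y.B)) : Conj X Y := by
  have hg := trA_gt X
  obtain ⟨V, hV, h1, h2⟩ := exists_V X (EE_gt hg) (EE_eq hg)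
  obtain ⟨W, hW, h3, h4⟩ := exists_V Y (EE_gt (trA_gt Y)) (EE_eq (trA_gt Y))
  rw [← hx, ← hy, ← hz] at h3
  rw [← hy] at h4
  set MA : M2 := !![EE (tr X.A), 0; tr X.B * EE (tr X.A) + tr (X.A * X.B) - tr X.A * tr X.B,
    tr X.A - EE (tr X.A)]
  set MB : M2 := !![0, 1; -1, tr X.B]
  have hu : IsUnit W.det := isUnit_iff_ne_zero.2 hW
  have key : ∀ (M N K : M2), V * M = K * V → W * N = K * W → (W⁻¹ * V) * M = N * (W⁻¹ * V) := by
    intro M N K h h'
    have h5 : N * W⁻¹ = W⁻¹ * K := by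
      calc N * W⁻¹ = (W⁻¹ * W) * N * W⁻¹ := by rw [Matrix.nonsing_inv_mul W hu, one_mul]
        _ = W⁻¹ * (W * N) * W⁻¹ := by simp only [mul_assoc]
        _ = W⁻¹ * (K * W) * W⁻¹ := by rw [h']
        _ = W⁻¹ * K * (W * W⁻¹) := by simp only [mul_assoc]
        _ = W⁻¹ * K := by rw [Matrix.mul_nonsing_inv W hu, mul_one]
    calc (W⁻¹ * V) * M = W⁻¹ * (V * M) := by rw [mul_assoc]
      _ = W⁻¹ * (K * V) := by rw [h]
      _ = (W⁻¹ * K) * V := by rw [mul_assoc]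
      _ = (N * W⁻¹) * V := by rw [h5]
      _ = N * (W⁻¹ * V) := by rw [mul_assoc]
  refine ⟨W⁻¹ * V, ?_, key _ _ _ h1 h3, key _ _ _ h2 h4⟩
  rw [Matrix.det_mul, Matrix.det_nonsing_inv]
  exact mul_ne_zero (by simpa using hW) hV

/-- The normal forms in terms of `E = exp L`, `F = exp u`. -/
noncomputable def nA (E : ℝ) (hE : 1 < E) : G2 :=
  ⟨!![E, 0; 0, E⁻¹], by
    have : E ≠ 0 := by positivity
    rw [Matrix.det_fin_two]; simp [this]⟩

noncomputable def nB (E F : ℝ) (hE : 1 < E) (hF : 0 < F) : G2 :=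
  ⟨!![(E ^ 2 + 1) / (E ^ 2 - 1) * F, 2 * E / (E ^ 2 - 1);
      2 * E / (E ^ 2 - 1), (E ^ 2 + 1) / (E ^ 2 - 1) * F⁻¹], by
    have h1 : E ^ 2 - 1 ≠ 0 := by nlinarith
    rw [Matrix.det_fin_two]
    simp
    field_simp
    ring⟩

theorem tr_nA (E : ℝ) (hE : 1 < E) : tr (nA E hE) = E + E⁻¹ := by
  simp [nA, Matrix.trace_fin_two]

theorem tr_nB (E F : ℝ) (hE : 1 < E) (hF : 0 < F) :
    tr (nB E F hE hF) = (E ^ 2 + 1) / (E ^ 2 - 1) * (F + F⁻¹) := by
  simp [nB, Matrix.trace_fin_two]; ring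

theorem tr_nAB (E F : ℝ) (hE : 1 < E) (hF : 0 < F) :
    tr (nA E hE * nB E F hE hF) = (E ^ 2 + 1) / (E ^ 2 - 1) * (E * F + E⁻¹ * F⁻¹) := by
  rw [tr, Matrix.SpecialLinearGroup.coe_mul, Matrix.trace_fin_two]
  simp only [Matrix.mul_apply, Fin.sum_univ_two]
  simp [nA, nB]; ring

noncomputable def NF (E F : ℝ) (hE : 1 < E) (hF : 0 < F) : Marked where
  A := nA E hE
  B := nB E F hE hF
  posA := by rw [tr_nA]; positivity
  posB := by
    have : 0 < E ^ 2 - 1 := by nlinarith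
    rw [tr_nB]; positivity
  cusp := by
    have h1 : E ^ 2 - 1 ≠ 0 := by nlinarith
    have h2 : E ≠ 0 := by positivity
    rw [tr_comm, tr_nA, tr_nB, tr_nAB]
    field_simp
    ring

/-- The coordinates. -/
noncomputable def cF (x y z : ℝ) : ℝ := (z - (EE x)⁻¹ * y) / x

theorem cF_NF (E F : ℝ) (hE : 1 < E) (hF : 0 < F) :
    cF (E + E⁻¹) ((E ^ 2 + 1) / (E ^ 2 - 1) * (F + F⁻¹))
      ((E ^ 2 + 1) / (E ^ 2 - 1) * (E * F + E⁻¹ * F⁻¹)) = F := by
  have h1 : E ^ 2 - 1 ≠ 0 := by nlinarith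
  have h2 : E ≠ 0 := by positivity
  rw [cF, EE_add hE]
  field_simp
  ring

theorem cF_pos {x y z : ℝ} (hx : 2 < x) (hy : 0 < y) (h : x ^ 2 + y ^ 2 + z ^ 2 = x * y * z) :
    0 < cF x y z := by
  have h1 := EE_gt hx
  have h2 := EE_eq hx
  set E := EE x with hE
  have h0 : E ≠ 0 := by positivity
  have hx2 : x = E + E⁻¹ := by field_simp; linarith
  have h3 : (z - E * y) * (z - E⁻¹ * y) = - x ^ 2 := by
    have : (z - E * y) * (z - E⁻¹ * y) = z ^ 2 - (E + E⁻¹) * y * z + y ^ 2 := by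
      field_simp; ring
    rw [this, ← hx2]; linarith
  have h4 : E⁻¹ < E := by
    have : E⁻¹ < 1 := inv_lt_one_of_one_lt₀ h1
    linarith
  have h5 : z - E * y < z - E⁻¹ * y := by nlinarith
  have h6 : 0 < z - E⁻¹ * y := by
    by_contra hc
    push Not at hc
    nlinarith [mul_nonneg_of_nonpos_of_nonpos (h5.le.trans hc) hc]
  unfold cF
  positivity

theorem conj_NF (X : Marked) (E F : ℝ) (hE : 1 < E) (hF : 0 < F) (h1 : E = EE (tr X.A))
    (h2 : F = cF (tr X.A) (tr X.B) (tr (X.A * X.B))) : Conj X (NF E F hE hF) := by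
  have hg := trA_gt X
  have hy := X.posB
  have hm := markov X
  have hE1 := EE_eq hg
  rw [← h1] at hE1
  have h0 : E ≠ 0 := by positivity
  have hx2 : tr X.A = E + E⁻¹ := by field_simp; linarith
  have hF1 : F = (tr (X.A * X.B) - E⁻¹ * tr X.B) / tr X.A := by rw [h2, cF, ← h1]
  have hx0 : tr X.A ≠ 0 := by positivity
  have hF2 : F⁻¹ = (E * tr X.B - tr (X.A * X.B)) / tr X.A := by
    have : F * ((E * tr X.B - tr (X.A * X.B)) / tr X.A) = 1 := by
      have h3 : (tr (X.A * X.B) - E * tr X.B) * (tr (X.A * X.B) - E⁻¹ * tr X.B)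
          = - tr X.A ^ 2 := by
        have : (tr (X.A * X.B) - E * tr X.B) * (tr (X.A * X.B) - E⁻¹ * tr X.B) =
          tr (X.A * X.B) ^ 2 - (E + E⁻¹) * tr X.B * tr (X.A * X.B) + tr X.B ^ 2 := by
          field_simp; ring
        rw [this, ← hx2]; linarith
      rw [hF1, div_mul_div_comm, div_eq_one_iff_eq (by positivity)]
      linarith
    exact inv_eq_of_mul_eq_one_right this
  have h4 : E ^ 2 - 1 ≠ 0 := by nlinarith
  apply conj_of_traces
  · change _ = tr (nA E hE)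
    rw [tr_nA, hx2]
  · change _ = tr (nB E F hE hF)
    rw [tr_nB, hF2, hF1, hx2]
    field_simp
    ring
  · change _ = tr (nA E hE * nB E F hE hF)
    rw [tr_nAB, hF2, hF1, hx2]
    field_simp
    ring

end Pool.Agent.Helper119.TH
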