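import Pool.Agent.Helper119.TH.Norm

namespace Pool.Agent.Helper119.TH

def Dom (k : ℝ) (M M' : M2) : Prop := ∀ i j, 0 ≤ M i j ∧ 0 ≤ M' i j ∧ M' i j ≤ (M i j) ^ k

theorem Dom.mul {k : ℝ} (hk : 1 ≤ k) {M M' N N' : M2} (h : Dom k M M') (h' : Dom k N N') :
    Dom k (M * N) (M' * N') := by
  intro i j
  simp only [Matrix.mul_apply, Fin.sum_univ_two]
  obtain ⟨a1, a2, a3⟩ := h i 0
  obtain ⟨b1, b2, b3⟩ := h i 1
  obtain ⟨c1, c2, c3⟩ := h' 0 j
  obtain ⟨d1, d2, d3⟩ := h' 1 j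
  refine ⟨by positivity, by positivity, ?_⟩
  refine le_trans ?_ (Real.add_rpow_le_rpow_add (mul_nonneg a1 c1) (mul_nonneg b1 d1) hk)
  rw [Real.mul_rpow a1 c1, Real.mul_rpow b1 d1]
  exact add_le_add (mul_le_mul a3 c3 c2 (Real.rpow_nonneg a1 k))
    (mul_le_mul b3 d3 d2 (Real.rpow_nonneg b1 k))

theorem Dom.pow {k : ℝ} (hk : 1 ≤ k) {M M' : M2} (h : Dom k M M') (n : ℕ) :
    Dom k (M ^ n) (M' ^ n) := by
  induction n with
  | zero =>
    intro i j
    fin_cases i <;> fin_cases j <;> simp [Real.zero_rpow (by linarith : k ≠ 0)]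
  | succ n ih => rw [pow_succ, pow_succ]; exact ih.mul hk h

theorem one_lt_pow {E k : ℝ} (hE : 1 < E) (hk : 1 ≤ k) : 1 < E ^ k :=
  Real.one_lt_rpow hE (by linarith)

theorem dom_A {E k : ℝ} (hE : 1 < E) (hk : 1 ≤ k) :
    Dom k (nA E hE : M2) (nA (E ^ k) (one_lt_pow hE hk) : M2) := by
  have h0 : (0 : ℝ) ≤ E := by linarith
  have hk0 : k ≠ 0 := by linarith
  intro i j
  fin_cases i <;> fin_cases j <;> simp [nA, Real.zero_rpow hk0, Real.inv_rpow h0]
  · exact ⟨h0, Real.rpow_nonneg h0 k⟩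
  · exact ⟨h0, Real.rpow_nonneg h0 k⟩

theorem dom_B {E F k : ℝ} (hE : 1 < E) (hF : 0 < F) (hk : 1 ≤ k) :
    Dom k (nB E F hE hF : M2)
      (nB (E ^ k) (F ^ k) (one_lt_pow hE hk) (Real.rpow_pos_of_pos hF k) : M2) := by
  have h0 : (0 : ℝ) ≤ E := by linarith
  have hk0 : k ≠ 0 := by linarith
  have hT : 1 < E ^ 2 := by nlinarith
  have hEk := one_lt_pow hE hk
  have hTk' : 1 < (E ^ k) ^ 2 := by nlinarith
  have hpow : (E ^ k) ^ 2 = (E ^ 2) ^ k := by
    rw [← Real.rpow_natCast, ← Real.rpow_natCast, ← Real.rpow_mul h0, ← Real.rpow_mul h0, mul_comm]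
  have hle : E ^ 2 ≤ (E ^ k) ^ 2 := by
    rw [hpow]
    exact Real.self_le_rpow_of_one_le hT.le hk
  have key1 : ((E ^ k) ^ 2 + 1) / ((E ^ k) ^ 2 - 1) ≤ ((E ^ 2 + 1) / (E ^ 2 - 1)) ^ k := by
    have h1 : ((E ^ k) ^ 2 + 1) / ((E ^ k) ^ 2 - 1) ≤ (E ^ 2 + 1) / (E ^ 2 - 1) := by
      rw [div_le_div_iff₀ (by linarith) (by linarith)]
      nlinarith
    refine h1.trans (Real.self_le_rpow_of_one_le ?_ hk)
    rw [le_div_iff₀ (by linarith)]
    linarith
  have key2 : 2 * E ^ k / ((E ^ k) ^ 2 - 1) ≤ (2 * E / (E ^ 2 - 1)) ^ k := by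
    rw [Real.div_rpow (by linarith) (by linarith), Real.mul_rpow (by norm_num) h0, hpow]
    rw [hpow] at hTk'
    have h1 : (E ^ 2 - 1) ^ k + 1 ≤ (E ^ 2) ^ k := by
      have := Real.add_rpow_le_rpow_add (a := E ^ 2 - 1) (b := 1) (by linarith) (by norm_num) hk
      simpa using this
    have h2 : (2 : ℝ) ≤ 2 ^ k := Real.self_le_rpow_of_one_le (by norm_num) hk
    have h3 : 0 < (E ^ 2 - 1) ^ k := Real.rpow_pos_of_pos (by linarith) k
    have h4 : 0 < E ^ k := by linarith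
    rw [div_le_div_iff₀ (by linarith) h3]
    have h5 : 2 * (E ^ 2 - 1) ^ k ≤ 2 ^ k * ((E ^ 2) ^ k - 1) :=
      mul_le_mul h2 (by linarith) h3.le (by positivity)
    calc 2 * E ^ k * (E ^ 2 - 1) ^ k = E ^ k * (2 * (E ^ 2 - 1) ^ k) := by ring
      _ ≤ E ^ k * (2 ^ k * ((E ^ 2) ^ k - 1)) := mul_le_mul_of_nonneg_left h5 h4.le
      _ = 2 ^ k * E ^ k * ((E ^ 2) ^ k - 1) := by ring
  have hFk := Real.rpow_pos_of_pos hF k
  have p1 : 0 ≤ (E ^ 2 + 1) / (E ^ 2 - 1) := div_nonneg (by linarith) (by linarith)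
  have p2 : 0 ≤ ((E ^ k) ^ 2 + 1) / ((E ^ k) ^ 2 - 1) := div_nonneg (by linarith) (by linarith)
  have p3 : 0 ≤ 2 * E / (E ^ 2 - 1) := div_nonneg (by linarith) (by linarith)
  have p4 : 0 ≤ 2 * E ^ k / ((E ^ k) ^ 2 - 1) := div_nonneg (by linarith) (by linarith)
  intro i j
  fin_cases i <;> fin_cases j <;> simp [nB]
  · refine ⟨by positivity, by positivity, ?_⟩
    rw [Real.mul_rpow p1 hF.le]
    exact mul_le_mul_of_nonneg_right key1 hFk.le
  · exact ⟨p3, p4, key2⟩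
  · exact ⟨p3, p4, key2⟩
  · refine ⟨by positivity, by positivity, ?_⟩
    rw [Real.mul_rpow p1 (by positivity), Real.inv_rpow hF.le]
    exact mul_le_mul_of_nonneg_right key1 (by positivity)

/-- Stretching a normal form. -/
noncomputable def SF (E F k : ℝ) (hE : 1 < E) (hF : 0 < F) (hk : 1 ≤ k) : Marked :=
  NF (E ^ k) (F ^ k) (one_lt_pow hE hk) (Real.rpow_pos_of_pos hF k)

theorem dom_node {E F k : ℝ} (hE : 1 < E) (hF : 0 < F) (hk : 1 ≤ k) {P Q : F2} (h : Node P Q) :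
    Dom k (rep (NF E F hE hF) P : M2) (rep (SF E F k hE hF hk) P : M2) ∧
    Dom k (rep (NF E F hE hF) Q : M2) (rep (SF E F k hE hF hk) Q : M2) := by
  induction h with
  | base =>
    rw [rep_a, rep_a, rep_b, rep_b]
    exact ⟨dom_A hE hk, dom_B hE hF hk⟩
  | left _ ih =>
    refine ⟨ih.1, ?_⟩
    rw [map_mul, map_mul]
    simp only [Matrix.SpecialLinearGroup.coe_mul]
    exact ih.1.mul hk ih.2
  | right _ ih =>
    refine ⟨?_, ih.2⟩
    rw [map_mul, map_mul]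
    simp only [Matrix.SpecialLinearGroup.coe_mul]
    exact ih.1.mul hk ih.2

theorem tr_ge_two {M : G2} (h0 : 0 ≤ (M : M2) 0 0) (h1 : 0 ≤ (M : M2) 1 1)
    (h2 : 0 ≤ (M : M2) 0 1) (h3 : 0 ≤ (M : M2) 1 0) : 2 ≤ tr M := by
  have h := ent M
  rw [tr, Matrix.trace_fin_two]
  nlinarith [sq_nonneg ((M : M2) 0 0 - (M : M2) 1 1), mul_nonneg h2 h3]

theorem tr_pow (M : G2) (t : ℝ) (h : tr M = 2 * Real.cosh t) (n : ℕ) :
    tr (M ^ n) = 2 * Real.cosh (n * t) ∧ tr (M ^ (n + 1)) = 2 * Real.cosh ((n + 1 : ℕ) * t) := by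
  induction n with
  | zero => simp [h, tr]
  | succ n ih =>
    refine ⟨ih.2, ?_⟩
    have h1 : tr (M ^ (n + 1 + 1)) = tr M * tr (M ^ (n + 1)) - tr (M ^ n) := by
      have := tr_inv_mul M (M ^ (n + 1))
      have e1 : M⁻¹ * M ^ (n + 1) = M ^ n := by group
      have e2 : M * M ^ (n + 1) = M ^ (n + 1 + 1) := by group
      rw [e1, e2] at this
      linarith
    rw [h1, h, ih.1, ih.2]
    have e3 : ((n + 1 + 1 : ℕ) : ℝ) * t = (n + 1 : ℕ) * t + t := by push_cast; ring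
    have e4 : (n : ℝ) * t = (n + 1 : ℕ) * t - t := by push_cast; ring
    rw [e3, e4, Real.cosh_add, Real.cosh_sub]
    ring

theorem dom_len {k : ℝ} (hk : 1 ≤ k) {M M' : G2} (h : Dom k (M : M2) (M' : M2)) :
    2 * Real.arcosh (|tr M'| / 2) ≤ k * (2 * Real.arcosh (|tr M| / 2)) := by
  have h2 : 2 ≤ tr M := tr_ge_two (h 0 0).1 (h 1 1).1 (h 0 1).1 (h 1 0).1
  have h2' : 2 ≤ tr M' := tr_ge_two (h 0 0).2.1 (h 1 1).2.1 (h 0 1).2.1 (h 1 0).2.1
  rw [abs_of_nonneg (by linarith), abs_of_nonneg (by linarith)]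
  set t := Real.arcosh (tr M / 2) with ht
  set t' := Real.arcosh (tr M' / 2) with ht'
  have e1 : tr M = 2 * Real.cosh t := by rw [ht, Real.cosh_arcosh (by linarith)]; ring
  have e2 : tr M' = 2 * Real.cosh t' := by rw [ht', Real.cosh_arcosh (by linarith)]; ring
  have t0 : 0 ≤ t := Real.arcosh_nonneg (by linarith)
  have key : ∀ n : ℕ, n * (t' - k * t) ≤ k * Real.log 2 := by
    intro n
    have hd := h.pow hk n
    have f1 := (tr_pow M t e1 n).1
    have f2 := (tr_pow M' t' e2 n).1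
    have g1 : tr (M' ^ n) ≤ (tr (M ^ n)) ^ k := by
      rw [tr, tr, Matrix.SpecialLinearGroup.coe_pow, Matrix.SpecialLinearGroup.coe_pow,
        Matrix.trace_fin_two, Matrix.trace_fin_two]
      exact (add_le_add (hd 0 0).2.2 (hd 1 1).2.2).trans
        (Real.add_rpow_le_rpow_add (hd 0 0).1 (hd 1 1).1 hk)
    rw [f1, f2] at g1
    have g2 : Real.exp (n * t') ≤ 2 * Real.cosh (n * t') := by
      rw [Real.cosh_eq]; linarith [Real.exp_pos (-(n * t'))]
    have g3 : 2 * Real.cosh (n * t) ≤ 2 * Real.exp (n * t) := by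
      rw [Real.cosh_eq]
      have : Real.exp (-(n * t)) ≤ Real.exp (n * t) := by
        apply Real.exp_le_exp.2
        have : 0 ≤ (n : ℝ) * t := by positivity
        linarith
      linarith
    have g4 : Real.exp (n * t') ≤ (2 * Real.exp (n * t)) ^ k :=
      g2.trans (g1.trans (Real.rpow_le_rpow (by positivity) g3 (by linarith)))
    have g5 := Real.log_le_log (Real.exp_pos _) g4
    rw [Real.log_exp, Real.log_rpow (by positivity), Real.log_mul (by norm_num) (by positivity),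
      Real.log_exp] at g5
    linarith
  have : t' - k * t ≤ 0 := by
    by_contra hc
    push Not at hc
    obtain ⟨n, hn⟩ := exists_nat_gt (k * Real.log 2 / (t' - k * t))
    rw [div_lt_iff₀ hc] at hn
    linarith [key n]
  linarith

def Qk (w : F2) : Prop := ∀ (E F k : ℝ) (hE : 1 < E) (hF : 0 < F) (hk : 1 ≤ k),
  len (SF E F k hE hF hk) w ≤ k * len (NF E F hE hF) w

theorem len_inv (X : Marked) (w : F2) : len X w⁻¹ = len X w := by
  rw [len, len, map_inv, tr_inv]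

theorem len_cj (X : Marked) (g w : F2) : len X (g * w * g⁻¹) = len X w := by
  rw [len, len, map_mul, map_mul, map_inv, tr_conj]

theorem len_sg {E F : ℝ} (hE : 1 < E) (hF : 0 < F) (w : F2) :
    len (NF E F hE hF) (sg w) = len (NF E F⁻¹ hE (inv_pos.2 hF)) w := by
  set X := NF E F hE hF with hX
  have hz := z'_pos X
  let Y : Marked := ⟨X.A, X.B⁻¹, X.posA, by rw [tr_inv]; exact X.posB, by
    have h := markov X
    rw [tr_comm, tr_mul_inv, tr_inv]
    linarith⟩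
  have h1 : len X (sg w) = len Y w := by
    have : rep Y = (rep X).comp sg :=
      hom_ext (by simp [Y]) (by simp [Y])
    rw [len, len, this]; rfl
  rw [h1]
  apply len_congr
  apply conj_of_traces
  · rfl
  · change tr X.B⁻¹ = tr (nB E F⁻¹ hE (inv_pos.2 hF))
    rw [tr_inv]
    change tr (nB E F hE hF) = _
    rw [tr_nB, tr_nB, inv_inv, add_comm F]
  · change tr (X.A * X.B⁻¹) = tr (nA E hE * nB E F⁻¹ hE (inv_pos.2 hF))
    rw [tr_mul_inv]
    change tr (nA E hE) * tr (nB E F hE hF) - tr (nA E hE * nB E F hE hF) = _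
    rw [tr_nA, tr_nB, tr_nAB, tr_nAB, inv_inv]
    ring

theorem good_Qk {U V : F2} (h : Good U V) : Qk U ∧ Qk V := by
  induction h with
  | node h =>
    exact ⟨fun E F k hE hF hk => dom_len hk (dom_node hE hF hk h).1,
      fun E F k hE hF hk => dom_len hk (dom_node hE hF hk h).2⟩
  | conj g _ ih =>
    exact ⟨fun E F k hE hF hk => by rw [len_cj, len_cj]; exact ih.1 E F k hE hF hk,
      fun E F k hE hF hk => by rw [len_cj, len_cj]; exact ih.2 E F k hE hF hk⟩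
  | inv _ ih =>
    exact ⟨ih.1, fun E F k hE hF hk => by rw [len_inv, len_inv]; exact ih.2 E F k hE hF hk⟩
  | swap _ ih => exact ⟨ih.2, ih.1⟩
  | sig _ ih =>
    have key : ∀ w, Qk w → Qk (sg w) := by
      intro w hw E F k hE hF hk
      have h1 := hw E F⁻¹ k hE (inv_pos.2 hF) hk
      have h2 : len (SF E F⁻¹ k hE (inv_pos.2 hF) hk) w = len (SF E F k hE hF hk) (sg w) := by
        rw [SF, SF, len_sg]
        congr 2
        exact Real.inv_rpow hF.le k
      rw [len_sg, ← h2]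
      exact h1
    exact ⟨key _ ih.1, key _ ih.2⟩

theorem stretch_le {φ : MulAut F2} (hφ : φ ∈ Mod) : Qk (φ a) := (good_Qk (good_mod hφ)).1

theorem len_a {E F : ℝ} (hE : 1 < E) (hF : 0 < F) : len (NF E F hE hF) a = 2 * Real.log E := by
  have h0 : 0 < E := by linarith
  rw [len, rep_a]
  change 2 * Real.arcosh (|tr (nA E hE)| / 2) = _
  rw [tr_nA, abs_of_nonneg (by positivity)]
  have : (E + E⁻¹) / 2 = Real.cosh (Real.log E) := by
    rw [Real.cosh_eq, Real.exp_neg, Real.exp_log h0]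
  rw [this, Real.arcosh_cosh (Real.log_nonneg hE.le)]

end Pool.Agent.Helper119.TH
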