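import Pool.Agent.Helper119.TH.Defs

namespace Pool.Agent.Helper119.TH

abbrev M2 : Type := Matrix (Fin 2) (Fin 2) ℝ

theorem inv_coe (M : G2) : ((M⁻¹ : G2) : M2) =
    !![(M : M2) 1 1, -(M : M2) 0 1; -(M : M2) 1 0, (M : M2) 0 0] := by
  rw [Matrix.SpecialLinearGroup.coe_inv, Matrix.adjugate_fin_two]

theorem tr_inv (M : G2) : tr M⁻¹ = tr M := by
  rw [tr, tr, inv_coe]
  simp [Matrix.trace_fin_two]
  ring

theorem tr_mul_comm (M N : G2) : tr (M * N) = tr (N * M) := by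
  rw [tr, tr, Matrix.SpecialLinearGroup.coe_mul, Matrix.trace_mul_comm,
    ← Matrix.SpecialLinearGroup.coe_mul]

theorem tr_conj (M N : G2) : tr (M * N * M⁻¹) = tr N := by
  rw [tr_mul_comm]; simp

theorem ent (M : G2) : (M : M2) 0 0 * (M : M2) 1 1 - (M : M2) 0 1 * (M : M2) 1 0 = 1 := by
  have := M.2
  rwa [Matrix.det_fin_two] at this

theorem tr_comm (A B : G2) : tr (A * B * A⁻¹ * B⁻¹) =
    tr A ^ 2 + tr B ^ 2 + tr (A * B) ^ 2 - tr A * tr B * tr (A * B) - 2 := by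
  have hA := ent A
  have hB := ent B
  simp only [tr, Matrix.SpecialLinearGroup.coe_mul, inv_coe]
  generalize (A : M2) = A at *
  generalize (B : M2) = B at *
  simp only [Matrix.trace_fin_two, Matrix.mul_apply, Fin.sum_univ_two]
  simp
  generalize A 0 0 = p at *
  generalize A 0 1 = q at *
  generalize A 1 0 = r at *
  generalize A 1 1 = s at *
  generalize B 0 0 = p' at *
  generalize B 0 1 = q' at *
  generalize B 1 0 = r' at *
  generalize B 1 1 = s' at *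
  grind

theorem tr_inv_mul (A B : G2) : tr (A⁻¹ * B) = tr A * tr B - tr (A * B) := by
  have hA := ent A
  have hB := ent B
  simp only [tr, Matrix.SpecialLinearGroup.coe_mul, inv_coe]
  generalize (A : M2) = A at *
  generalize (B : M2) = B at *
  simp only [Matrix.trace_fin_two, Matrix.mul_apply, Fin.sum_univ_two]
  simp
  ring

theorem tr_mul_inv (A B : G2) : tr (A * B⁻¹) = tr A * tr B - tr (A * B) := by
  rw [tr_mul_comm, tr_inv_mul, tr_mul_comm B A]; ring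

theorem markov (X : Marked) :
    tr X.A ^ 2 + tr X.B ^ 2 + tr (X.A * X.B) ^ 2 = tr X.A * tr X.B * tr (X.A * X.B) := by
  have h1 := X.cusp
  have h2 := tr_comm X.A X.B
  linarith

theorem z_pos (X : Marked) : 0 < tr (X.A * X.B) := by
  have h := markov X
  have hx := X.posA
  have hy := X.posB
  have h1 : 0 < tr X.A * tr X.B * tr (X.A * X.B) := by rw [← h]; positivity
  have h2 : 0 < tr X.A * tr X.B := by positivity
  exact (pos_iff_pos_of_mul_pos h1).1 h2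

theorem z'_pos (X : Marked) : 0 < tr X.A * tr X.B - tr (X.A * X.B) := by
  have h := markov X
  have hx := X.posA
  have hy := X.posB
  have hz := z_pos X
  have h1 : 0 < tr (X.A * X.B) * (tr X.A * tr X.B - tr (X.A * X.B)) := by nlinarith
  exact (pos_iff_pos_of_mul_pos h1).1 hz

theorem trA_gt (X : Marked) : 2 < tr X.A := by
  have h := markov X
  have hx := X.posA
  have hy := X.posB
  have hz := z_pos X
  by_contra hc
  push Not at hc
  have h3 : tr X.A * (tr X.B * tr (X.A * X.B)) ≤ 2 * (tr X.B * tr (X.A * X.B)) :=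
    mul_le_mul_of_nonneg_right hc (by positivity)
  nlinarith [sq_nonneg (tr X.B - tr (X.A * X.B))]

/-- Existence of the four elementary changes of marking. -/
theorem ex_Ta (X : Marked) : ∃ Y : Marked, Y.A = X.A ∧ Y.B = X.A * X.B :=
  ⟨⟨X.A, X.A * X.B, X.posA, z_pos X, by
    have : X.A * (X.A * X.B) * X.A⁻¹ * (X.A * X.B)⁻¹ =
      X.A * (X.A * X.B * X.A⁻¹ * X.B⁻¹) * X.A⁻¹ := by group
    rw [this, tr_conj, X.cusp]⟩, rfl, rfl⟩

theorem ex_Tb (X : Marked) : ∃ Y : Marked, Y.A = X.A * X.B ∧ Y.B = X.B :=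
  ⟨⟨X.A * X.B, X.B, z_pos X, X.posB, by
    have : X.A * X.B * X.B * (X.A * X.B)⁻¹ * X.B⁻¹ = X.A * X.B * X.A⁻¹ * X.B⁻¹ := by group
    rw [this, X.cusp]⟩, rfl, rfl⟩

theorem ex_Ta' (X : Marked) : ∃ Y : Marked, Y.A = X.A ∧ Y.B = X.A⁻¹ * X.B :=
  ⟨⟨X.A, X.A⁻¹ * X.B, X.posA, by rw [tr_inv_mul]; exact z'_pos X, by
    have : X.A * (X.A⁻¹ * X.B) * X.A⁻¹ * (X.A⁻¹ * X.B)⁻¹ =
      X.A⁻¹ * (X.A * X.B * X.A⁻¹ * X.B⁻¹) * (X.A⁻¹)⁻¹ := by group
    rw [this, tr_conj, X.cusp]⟩, rfl, rfl⟩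

theorem ex_Tb' (X : Marked) : ∃ Y : Marked, Y.A = X.A * X.B⁻¹ ∧ Y.B = X.B :=
  ⟨⟨X.A * X.B⁻¹, X.B, by rw [tr_mul_inv]; exact z'_pos X, X.posB, by
    have : X.A * X.B⁻¹ * X.B * (X.A * X.B⁻¹)⁻¹ * X.B⁻¹ = X.A * X.B * X.A⁻¹ * X.B⁻¹ := by group
    rw [this, X.cusp]⟩, rfl, rfl⟩

@[simp] theorem Ta_a : Ta a = a := by
  change sub a (a * b) a = a
  exact sub_a _ _
@[simp] theorem Ta_b : Ta b = a * b := by
  change sub a (a * b) b = a * b
  exact sub_b _ _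
@[simp] theorem Tb_a : Tb a = a * b := by
  change sub (a * b) b a = a * b
  exact sub_a _ _
@[simp] theorem Tb_b : Tb b = b := by
  change sub (a * b) b b = b
  exact sub_b _ _
theorem Ta_a' : Ta⁻¹ a = a := by
  change sub a (a⁻¹ * b) a = a
  exact sub_a _ _
theorem Ta_b' : Ta⁻¹ b = a⁻¹ * b := by
  change sub a (a⁻¹ * b) b = _
  exact sub_b _ _
theorem Tb_a' : Tb⁻¹ a = a * b⁻¹ := by
  change sub (a * b⁻¹) b a = _
  exact sub_a _ _
theorem Tb_b' : Tb⁻¹ b = b := by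
  change sub (a * b⁻¹) b b = _
  exact sub_b _ _

theorem rep_eq {X Y : Marked} {φ : MulAut F2} (hA : Y.A = rep X (φ a)) (hB : Y.B = rep X (φ b))
    (w : F2) : rep Y w = rep X (φ w) := by
  have : rep Y = (rep X).comp (φ : F2 →* F2) := hom_ext (by simpa using hA) (by simpa using hB)
  rw [this]; rfl

theorem ex_comp_aux (φ : MulAut F2) (hφ : φ ∈ Mod) :
    (∀ X : Marked, ∃ Y : Marked, Y.A = rep X (φ a) ∧ Y.B = rep X (φ b)) ∧
    (∀ X : Marked, ∃ Y : Marked, Y.A = rep X (φ⁻¹ a) ∧ Y.B = rep X (φ⁻¹ b)) := by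
  have key : ∀ φ ψ : MulAut F2,
      (∀ X : Marked, ∃ Y : Marked, Y.A = rep X (φ a) ∧ Y.B = rep X (φ b)) →
      (∀ X : Marked, ∃ Y : Marked, Y.A = rep X (ψ a) ∧ Y.B = rep X (ψ b)) →
      (∀ X : Marked, ∃ Y : Marked, Y.A = rep X ((φ * ψ) a) ∧ Y.B = rep X ((φ * ψ) b)) := by
    intro φ ψ h1 h2 X
    obtain ⟨Y, hA, hB⟩ := h1 X
    obtain ⟨Z, hA', hB'⟩ := h2 Y
    exact ⟨Z, by rw [hA', rep_eq hA hB]; rfl, by rw [hB', rep_eq hA hB]; rfl⟩
  induction hφ using Subgroup.closure_induction with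
  | mem x hx =>
    rcases hx with rfl | rfl
    · exact ⟨fun X => by simpa using ex_Ta X, fun X => by
        rw [Ta_a', Ta_b']; simpa using ex_Ta' X⟩
    · exact ⟨fun X => by simpa using ex_Tb X, fun X => by
        rw [Tb_a', Tb_b']; simpa using ex_Tb' X⟩
  | one => exact ⟨fun X => ⟨X, by simp, by simp⟩, fun X => ⟨X, by simp, by simp⟩⟩
  | mul x y _ _ hx hy =>
    refine ⟨key x y hx.1 hy.1, ?_⟩
    rw [mul_inv_rev]
    exact key _ _ hy.2 hx.2
  | inv x _ hx => exact ⟨hx.2, by rw [inv_inv]; exact hx.1⟩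

theorem ex_comp {φ : MulAut F2} (hφ : φ ∈ Mod) (X : Marked) :
    ∃ Y : Marked, Y.A = rep X (φ a) ∧ Y.B = rep X (φ b) := (ex_comp_aux φ hφ).1 X

end Pool.Agent.Helper119.TH
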